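import Pool.Agent.MinRank.Stmts

/-!
# A common complement of finitely many subspaces of the same dimension
-/

open Module Matrix

namespace Pool.Agent.MinRank

namespace COMPL

lemma exists_notMem (V : Type) [AddCommGroup V] [Module ℂ V] (S : Finset (Submodule ℂ V))
    (hS : (⊤ : Submodule ℂ V) ∉ S) : ∃ f : V, ∀ W ∈ S, f ∉ W := by
  have h1 := Subspace.biUnion_ne_univ_of_top_notMem (k := ℂ) (E := V) (s := S) hS
  rw [Ne, Set.eq_univ_iff_forall, not_forall] at h1
  obtain ⟨f, hf⟩ := h1
  refine ⟨f, fun W hW hfW => hf ?_⟩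
  simp only [Set.mem_iUnion]
  exact ⟨W, hW, hfW⟩

lemma main (V : Type) [AddCommGroup V] [Module ℂ V] [FiniteDimensional ℂ V] :
    ∀ (k : ℕ) (S : Finset (Submodule ℂ V)) (m : ℕ), (∀ W ∈ S, finrank ℂ W = m) →
      m + k = finrank ℂ V → ∃ F : Submodule ℂ V, finrank ℂ F ≤ k ∧ ∀ W ∈ S, IsCompl W F := by
  classical
  intro k
  induction k with
  | zero =>
    intro S m hS hm
    refine ⟨⊥, by simp, fun W hW => ?_⟩
    have h1 : W = ⊤ := Submodule.eq_top_of_finrank_eq (by rw [hS W hW]; omega)
    rw [h1]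
    exact isCompl_top_bot
  | succ k ih =>
    intro S m hS hm
    have htop : (⊤ : Submodule ℂ V) ∉ S := by
      intro h
      have h1 := hS _ h
      rw [finrank_top] at h1
      omega
    obtain ⟨f, hf⟩ := exists_notMem V S htop
    obtain ⟨F', hF'k, hF'⟩ := ih (S.image fun W => W ⊔ Submodule.span ℂ {f}) (m + 1) (by
      intro W' hW'
      obtain ⟨W, hW, rfl⟩ := Finset.mem_image.1 hW'
      have hf0 : f ≠ 0 := by
        rintro rfl
        exact hf W hW W.zero_mem
      have hinf : W ⊓ Submodule.span ℂ {f} = ⊥ := by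
        rw [eq_bot_iff]
        rintro x ⟨hxW, hxf⟩
        obtain ⟨c, rfl⟩ := Submodule.mem_span_singleton.1 hxf
        by_cases hc : c = 0
        · rw [hc, zero_smul]
          exact Submodule.zero_mem _
        · exfalso
          apply hf W hW
          have h2 := W.smul_mem c⁻¹ hxW
          rwa [smul_smul, inv_mul_cancel₀ hc, one_smul] at h2
      have h3 := Submodule.finrank_sup_add_finrank_inf_eq W (Submodule.span ℂ {f})
      rw [hinf, finrank_bot, finrank_span_singleton hf0, hS W hW] at h3
      omega) (by omega)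
    refine ⟨F' ⊔ Submodule.span ℂ {f}, ?_, fun W hW => ?_⟩
    · have h1 := Submodule.finrank_add_le_finrank_add_finrank F' (Submodule.span ℂ {f})
      have h2 : finrank ℂ (Submodule.span ℂ {f}) ≤ 1 := by
        have h3 := finrank_span_le_card (R := ℂ) ({f} : Set V)
        simpa using h3
      omega
    · have h1 := hF' _ (Finset.mem_image_of_mem _ hW)
      have hsup : W ⊔ (F' ⊔ Submodule.span ℂ {f}) = ⊤ := by
        rw [← h1.sup_eq_top]
        rw [sup_assoc]
        congr 1
        exact sup_comm _ _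
      have h2 := Submodule.finrank_sup_add_finrank_inf_eq W (F' ⊔ Submodule.span ℂ {f})
      rw [hsup, finrank_top, hS W hW] at h2
      have h4 := Submodule.finrank_add_le_finrank_add_finrank F' (Submodule.span ℂ {f})
      have h5 : finrank ℂ (Submodule.span ℂ {f}) ≤ 1 := by
        have h3 := finrank_span_le_card (R := ℂ) ({f} : Set V)
        simpa using h3
      have h6 : finrank ℂ (W ⊓ (F' ⊔ Submodule.span ℂ {f}) : Submodule ℂ V) = 0 := by
        omega
      refine IsCompl.of_eq ?_ hsup
      exact Submodule.finrank_eq_zero.1 h6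

end COMPL

theorem COMPL_thm : Stmt_COMPL := by
  intro V _ _ _ S m hS
  by_cases hne : S.Nonempty
  · obtain ⟨W, hW⟩ := hne
    have h1 : m ≤ finrank ℂ V := by
      rw [← hS W hW]
      exact Submodule.finrank_le W
    obtain ⟨F, _, hF⟩ := COMPL.main V (finrank ℂ V - m) S m hS (by omega)
    exact ⟨F, hF⟩
  · refine ⟨⊥, fun W hW => absurd ⟨W, hW⟩ hne⟩

end Pool.Agent.MinRank
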