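import Pool.Agent.MinRank.Stmts

/-!
# Real and complex minimum rank: the module CONF

The configuration in the complex projective plane gives configurations with points of rank `j + 1`
and lines of rank `j + 2` in `ℂ ^ k`, for `j + 3 ≤ k`.
-/

open Module Matrix

namespace Pool.Agent.MinRank

namespace CONF

/-- The rank of the inverse image of a subspace under a surjective map. -/
theorem finrank_comap {V W : Type} [AddCommGroup V] [Module ℂ V] [FiniteDimensional ℂ V]
    [AddCommGroup W] [Module ℂ W] [FiniteDimensional ℂ W] (f : V →ₗ[ℂ] W)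
    (hf : Function.Surjective f) (S : Submodule ℂ W) :
    finrank ℂ (S.comap f) + finrank ℂ W = finrank ℂ S + finrank ℂ V := by
  have hker : LinearMap.ker f ≤ S.comap f := by
    intro x hx
    rw [Submodule.mem_comap, LinearMap.mem_ker.mp hx]
    exact S.zero_mem
  have h1 := LinearMap.finrank_range_add_finrank_ker (f.domRestrict (S.comap f))
  have h2 := LinearMap.finrank_range_add_finrank_ker f
  have h3 : LinearMap.range (f.domRestrict (S.comap f)) = S := by
    rw [LinearMap.range_domRestrict, Submodule.map_comap_eq_of_surjective hf]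
  have h4 : finrank ℂ (LinearMap.ker (f.domRestrict (S.comap f))) =
      finrank ℂ (LinearMap.ker f) := by
    have e : LinearMap.ker (f.domRestrict (S.comap f)) =
        (LinearMap.ker f).comap (S.comap f).subtype := by
      ext x
      simp [LinearMap.mem_ker]
    rw [e]
    exact (Submodule.comapSubtypeEquivOfLe hker).finrank_eq
  have h5 : finrank ℂ (LinearMap.range f) = finrank ℂ W := by
    rw [LinearMap.range_eq_top.mpr hf, finrank_top]
  rw [h3, h4] at h1
  omega

end CONF

theorem CONF_thm (hCONF3 : Stmt_CONF3) : Stmt_CONF := by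
  intro j k hjk
  obtain ⟨P, L, hP, hL, h1, h2⟩ := hCONF3
  -- the surjection `ℂ ^ (j + 3) → ℂ ^ 3`
  obtain ⟨p, hp⟩ : ∃ p : (Fin (j + 3) → ℂ) →ₗ[ℂ] (Fin 3 → ℂ), Function.Surjective p :=
    ⟨LinearMap.funLeft ℂ ℂ (Fin.natAdd j),
      LinearMap.funLeft_surjective_of_injective ℂ ℂ _ (Fin.natAdd_injective 3 j)⟩
  -- the injection `ℂ ^ (j + 3) → ℂ ^ k`
  obtain ⟨e, he⟩ : ∃ e : (Fin (j + 3) → ℂ) →ₗ[ℂ] (Fin k → ℂ), Function.Injective e := by
    obtain ⟨g, hg⟩ := LinearMap.exists_rightInverse_of_surjective
      (LinearMap.funLeft ℂ ℂ (Fin.castLE hjk))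
      (LinearMap.range_eq_top.mpr
        (LinearMap.funLeft_surjective_of_injective ℂ ℂ _ (Fin.castLE_injective hjk)))
    refine ⟨g, fun x y hxy => ?_⟩
    have hx := LinearMap.congr_fun hg x
    have hy := LinearMap.congr_fun hg y
    simp only [LinearMap.comp_apply, LinearMap.id_apply] at hx hy
    rw [← hx, ← hy, hxy]
  have hdim : ∀ (S : Submodule ℂ (Fin 3 → ℂ)),
      finrank ℂ ((S.comap p).map e) = finrank ℂ S + j := by
    intro S
    have h := CONF.finrank_comap p hp S
    rw [finrank_fin_fun, finrank_fin_fun] at h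
    rw [((S.comap p).equivMapOfInjective e he).symm.finrank_eq]
    omega
  have hle : ∀ (S T : Submodule ℂ (Fin 3 → ℂ)),
      (S.comap p).map e ≤ (T.comap p).map e ↔ S ≤ T := by
    intro S T
    rw [Submodule.map_le_map_iff_of_injective he, Submodule.comap_le_comap_iff_of_surjective hp]
  refine ⟨fun i => ((P i).comap p).map e, fun l => ((L l).comap p).map e, fun i => ?_,
    fun l => ?_, fun l t => (hle _ _).mpr (h1 l t), fun s hs => (hle _ _).not.mpr (h2 s hs)⟩
  · rw [hdim, hP i, Nat.add_comm]
  · rw [hdim, hL l, Nat.add_comm]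

end Pool.Agent.MinRank
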