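import Pool.Agent.MinRank.Defs

/-!
# Real and complex minimum rank: statements of the modules

See `PAPER.md`.
-/

open Module Matrix

namespace Pool.Agent.MinRank

/-! ### The configuration -/

/-- The three points of each of the ten lines; the points are
`o = 0, a = 1, b = 2, c = 3, d = 4, e = 5, f = 6, g = 7, h = 8`. -/
def lines : Fin 10 → Fin 3 → Fin 9 :=
  ![![0, 1, 5], ![0, 2, 6], ![1, 2, 3], ![0, 3, 4], ![2, 4, 7], ![5, 7, 3], ![1, 7, 6],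
    ![1, 4, 8], ![2, 8, 5], ![0, 7, 8]]

/-- Pairs of a point and a line which are not incident. -/
def offs : List (Fin 9 × Fin 10) :=
  [(2, 0), (3, 0), (4, 0), (6, 0), (7, 0), (8, 0), (5, 1), (3, 1), (1, 1), (4, 2)]

/-- The points `P` and the lines `L` have the incidences `lines`, but not `offs`. -/
def Inc {α : Type} [LE α] (P : Fin 9 → α) (L : Fin 10 → α) : Prop :=
  (∀ l t, P (lines l t) ≤ L l) ∧ ∀ s ∈ offs, ¬ P s.1 ≤ L s.2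

/-- HESSE: the configuration does not exist in the real projective plane. -/
def Stmt_HESSE : Prop :=
  ∀ (Q : Type) [AddCommGroup Q] [Module ℝ Q] (o a b c d e f g h : Q),
    LinearIndependent ℝ ![o, a, b] → LinearIndependent ℝ ![o, a, c] →
    LinearIndependent ℝ ![o, a, d] → LinearIndependent ℝ ![o, a, f] →
    LinearIndependent ℝ ![o, a, g] → LinearIndependent ℝ ![o, a, h] →
    LinearIndependent ℝ ![o, b, e] → LinearIndependent ℝ ![b, c] → LinearIndependent ℝ ![c, d] →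
    ¬ LinearIndependent ℝ ![o, a, e] → ¬ LinearIndependent ℝ ![o, b, f] →
    ¬ LinearIndependent ℝ ![a, b, c] → ¬ LinearIndependent ℝ ![o, c, d] →
    ¬ LinearIndependent ℝ ![b, d, g] → ¬ LinearIndependent ℝ ![e, g, c] →
    ¬ LinearIndependent ℝ ![a, g, f] → ¬ LinearIndependent ℝ ![a, d, h] →
    ¬ LinearIndependent ℝ ![b, h, e] → ¬ LinearIndependent ℝ ![o, g, h] → False

/-- LOCAL: it does not exist either with points of dimension `x` and lines of dimension at most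
`x + 1` (from HESSE). -/
def Stmt_LOCAL : Prop :=
  ∀ (V : Type) [AddCommGroup V] [Module ℝ V] [FiniteDimensional ℝ V] (x : ℕ)
    (P : Fin 9 → Submodule ℝ V) (L : Fin 10 → Submodule ℝ V),
    (∀ i, finrank ℝ (P i) = x) → (∀ l, finrank ℝ (L l) ≤ x + 1) → ¬ Inc P L

/-- CONF3: the configuration in the complex projective plane. -/
def Stmt_CONF3 : Prop :=
  ∃ (P : Fin 9 → Submodule ℂ (Fin 3 → ℂ)) (L : Fin 10 → Submodule ℂ (Fin 3 → ℂ)),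
    (∀ i, finrank ℂ (P i) = 1) ∧ (∀ l, finrank ℂ (L l) = 2) ∧ Inc P L

/-- CONF: the configuration with points of rank `j + 1` and lines of rank `j + 2` in `ℂ^k`
(from CONF3). -/
def Stmt_CONF : Prop :=
  ∀ j k : ℕ, j + 3 ≤ k →
    ∃ (P : Fin 9 → Submodule ℂ (Fin k → ℂ)) (L : Fin 10 → Submodule ℂ (Fin k → ℂ)),
      (∀ i, finrank ℂ (P i) = j + 1) ∧ (∀ l, finrank ℂ (L l) = j + 2) ∧ Inc P L

/-! ### Ramsey theory -/

/-- COMPL: a common complement. -/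
def Stmt_COMPL : Prop :=
  ∀ (V : Type) [AddCommGroup V] [Module ℂ V] [FiniteDimensional ℂ V]
    (S : Finset (Submodule ℂ V)) (m : ℕ), (∀ W ∈ S, finrank ℂ W = m) →
    ∃ F : Submodule ℂ V, ∀ W ∈ S, IsCompl W F

/-- GAL1: Gallai's theorem for subspaces of the same rank, finite form (from COMPL). -/
def Stmt_GAL1 : Prop :=
  ∀ (V : Type) [AddCommGroup V] [Module ℂ V] [FiniteDimensional ℂ V]
    (S : Finset (Submodule ℂ V)) (m : ℕ), (∀ W ∈ S, finrank ℂ W = m) →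
    ∀ (κ : Type) [Finite κ], ∃ T : Finset (V ≃ₗ[ℂ] V), ∀ C : Submodule ℂ V → κ,
      ∃ g ∈ T, ∃ c : κ, ∀ W ∈ S, C (W.map (g : V →ₗ[ℂ] V)) = c

/-- GALM: all ranks at the same time (from GAL1). -/
def Stmt_GALM : Prop :=
  ∀ (V : Type) [AddCommGroup V] [Module ℂ V] [FiniteDimensional ℂ V]
    (S : Finset (Submodule ℂ V)) (κ : Type) [Finite κ],
    ∃ T : Finset (V ≃ₗ[ℂ] V), ∀ C : Submodule ℂ V → κ,
      ∃ g ∈ T, ∃ c : ℕ → κ, ∀ W ∈ S, C (W.map (g : V →ₗ[ℂ] V)) = c (finrank ℂ W)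

/-! ### Patterns of points and hyperplanes -/

/-- There are a vector `u` in `X` and a covector `v` in `Y` which show that `A` is not contained
in `B`. -/
def Wit {k : ℕ} (X Y : Finset (Fin k → ℂ)) (A B : Submodule ℂ (Fin k → ℂ)) : Prop :=
  ∃ u ∈ X, u ∈ A ∧ ∃ v ∈ Y, u ⬝ᵥ v ≠ 0 ∧ ∀ w ∈ B, w ⬝ᵥ v = 0

/-- WIT: finitely many vectors and covectors separate finitely many subspaces. -/
def Stmt_WIT : Prop :=
  ∀ (k : ℕ) (S : Finset (Submodule ℂ (Fin k → ℂ))), ∃ X Y : Finset (Fin k → ℂ),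
    ∀ A ∈ S, ∀ B ∈ S, ¬ A ≤ B → Wit X Y A B

/-- The zero pattern of `N` is that of the products of vectors in `X` and covectors in `Y`. -/
def Pattern {k : ℕ} {X Y : Finset (Fin k → ℂ)} (N : Matrix X Y ℝ) : Prop :=
  ∀ (u : X) (v : Y), N u v = 0 ↔ (u : Fin k → ℂ) ⬝ᵥ (v : Fin k → ℂ) = 0

/-- The span of the rows of `N` which belong to vectors in `W`. -/
noncomputable def Phi {k : ℕ} {X Y : Finset (Fin k → ℂ)} (N : Matrix X Y ℝ)
    (W : Submodule ℂ (Fin k → ℂ)) : Submodule ℝ (Y → ℝ) :=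
  Submodule.span ℝ {r | ∃ u : X, (u : Fin k → ℂ) ∈ W ∧ r = N u}

/-- PHI: properties of `Phi`. -/
def Stmt_PHI : Prop :=
  ∀ (k : ℕ) (X Y : Finset (Fin k → ℂ)) (N : Matrix X Y ℝ), Pattern N →
    (∀ A B, A ≤ B → Phi N A ≤ Phi N B) ∧
    (∀ A B, Wit X Y A B → ¬ Phi N A ≤ Phi N B) ∧
    (∀ A, finrank ℝ (Phi N A) ≤ N.rank)

/-- PAT: the theorem for patterns which are not symmetric (from LOCAL, CONF, GALM, WIT, PHI). -/
def Stmt_PAT : Prop :=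
  ∀ k : ℕ, 2 ≤ k → ∃ X Y : Finset (Fin k → ℂ),
    ∀ N : Matrix X Y ℝ, Pattern N → 2 * k - 2 ≤ N.rank

/-- GRAPH: the lower bound (from PAT). -/
def Stmt_GRAPH : Prop :=
  ∀ k : ℕ, 2 ≤ k → ∃ (n : ℕ) (G : SimpleGraph (Fin n)), mr ℂ G = k ∧ 2 * k - 2 ≤ mr ℝ G

/-! ### The upper bound -/

/-- PHASE: a generic phase. -/
def Stmt_PHASE : Prop :=
  ∀ S : Finset ℂ, ∃ c : ℂ, ∀ z ∈ S, z ≠ 0 → (c * z).re ≠ 0

/-- RERANK: the rank of the real part. -/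
def Stmt_RERANK : Prop :=
  ∀ (n : ℕ) (M : Matrix (Fin n) (Fin n) ℂ), (M.map Complex.re).rank ≤ 2 * M.rank

/-- GEN: generic vectors for functions which are quadratic on all lines. -/
def Stmt_GEN : Prop :=
  ∀ (V : Type) [AddCommGroup V] [Module ℂ V] (ι : Type) (I : Finset ι) (F : ι → V → ℂ),
    (∀ i ∈ I, (∃ v, F i v ≠ 0) ∧ ∀ v w : V, ∃ a b c : ℂ, ∀ t : ℂ,
      F i (v + t • w) = a + b * t + c * t ^ 2) →
    ∃ v, ∀ i ∈ I, F i v ≠ 0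

/-- ISO: a generic isotropic vector (from GEN). -/
def Stmt_ISO : Prop :=
  ∀ (n : ℕ) (A : Matrix (Fin n) (Fin n) ℂ), A.IsSymm → 3 ≤ A.rank →
    ∃ α : Fin n → ℂ, α ⬝ᵥ (A *ᵥ α) = 0 ∧ ∀ u, (∃ w, A u w ≠ 0) → (A *ᵥ α) u ≠ 0

/-- ISO2: an isotropic vector. -/
def Stmt_ISO2 : Prop :=
  ∀ (n : ℕ) (A : Matrix (Fin n) (Fin n) ℂ), A.IsSymm → 2 ≤ A.rank →
    ∃ α : Fin n → ℂ, α ⬝ᵥ (A *ᵥ α) = 0 ∧ A *ᵥ α ≠ 0

/-- RED: reduction of the rank by 2. -/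
def Stmt_RED : Prop :=
  ∀ (n : ℕ) (A : Matrix (Fin n) (Fin n) ℂ) (α : Fin n → ℂ), A.IsSymm → α ⬝ᵥ (A *ᵥ α) = 0 →
    A *ᵥ α ≠ 0 → ∃ q : Fin n → ℂ, (∀ u, (∀ w, A u w = 0) → q u = 0) ∧
      (A - vecMulVec (A *ᵥ α) q - vecMulVec q (A *ᵥ α)).rank + 2 ≤ A.rank

/-- UP3: the upper bound for rank at least 3 (from PHASE, RERANK, ISO, RED). -/
def Stmt_UP3 : Prop :=
  ∀ (n : ℕ) (A : Matrix (Fin n) (Fin n) ℂ), A.IsSymm → 3 ≤ A.rank →
    ∃ B : Matrix (Fin n) (Fin n) ℝ, B.IsSymm ∧ (∀ i j, i ≠ j → (B i j ≠ 0 ↔ A i j ≠ 0)) ∧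
      B.rank ≤ 2 * A.rank - 2

/-- UP2: the upper bound for rank 2 (from PHASE, ISO2, RED). -/
def Stmt_UP2 : Prop :=
  ∀ (n : ℕ) (A : Matrix (Fin n) (Fin n) ℂ), A.IsSymm → A.rank = 2 →
    ∃ B : Matrix (Fin n) (Fin n) ℝ, B.IsSymm ∧ (∀ i j, i ≠ j → (B i j ≠ 0 ↔ A i j ≠ 0)) ∧
      B.rank ≤ 2

/-- FINAL: the theorem (from GRAPH, UP2, UP3). -/
def Stmt_FINAL : Prop :=
  ∀ k : ℕ, 2 ≤ k →
    IsGreatest {m | ∃ (n : ℕ) (G : SimpleGraph (Fin n)), mr ℂ G = k ∧ mr ℝ G = m} (2 * k - 2)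

end Pool.Agent.MinRank
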