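import Mathlib
import Pool.Agent.MinRank.Stmts

/-!
# The configuration in the complex projective plane
-/

open Module Matrix

namespace Pool.Agent.MinRank

namespace CONF3

theorem exists_z : ∃ z : ℂ, z ^ 2 - z + 1 = 0 := by
  obtain ⟨s, hs⟩ := IsAlgClosed.exists_pow_nat_eq (-3 : ℂ) (n := 2) two_pos
  refine ⟨(1 + s) / 2, ?_⟩
  linear_combination hs / 4

/-- The points. -/
def pt (z : ℂ) : Fin 9 → Fin 3 → ℂ :=
  ![![1, 0, 0], ![0, 1, 0], ![0, 0, 1], ![0, 1, 1], ![1, 1, 1], ![z, 1, 0], ![1 - z, 0, 1],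
    ![1 - z, 1 - z, 1], ![z, 1, z]]

/-- The linear forms of the lines. -/
def ln (z : ℂ) : Fin 10 → Fin 3 → ℂ :=
  ![![0, 0, 1], ![0, 1, 0], ![1, 0, 0], ![0, 1, -1], ![1, -1, 0], ![1, -z, z], ![1, 0, z - 1],
    ![1, 0, -1], ![1, -z, 0], ![0, 1, z - 1]]

/-- The linear form with coefficients `v`. -/
def fm (v : Fin 3 → ℂ) : (Fin 3 → ℂ) →ₗ[ℂ] ℂ where
  toFun x := v 0 * x 0 + v 1 * x 1 + v 2 * x 2
  map_add' x y := by
    simp only [Pi.add_apply]
    ring
  map_smul' c x := by
    simp only [Pi.smul_apply, smul_eq_mul, RingHom.id_apply]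
    ring

theorem fm_apply (v x : Fin 3 → ℂ) : fm v x = v 0 * x 0 + v 1 * x 1 + v 2 * x 2 := rfl

theorem fm_ne {v : Fin 3 → ℂ} {i : Fin 3} (h : v i ≠ 0) : fm v ≠ 0 := by
  intro h0
  apply h
  have h1 := LinearMap.congr_fun h0 (Pi.single i 1)
  rw [fm_apply] at h1
  fin_cases i <;> simpa [Pi.single_apply] using h1

theorem finrank_ker {v : Fin 3 → ℂ} {i : Fin 3} (h : v i ≠ 0) :
    finrank ℂ (LinearMap.ker (fm v)) = 2 := by
  have h1 := Module.Dual.finrank_ker_add_one_of_ne_zero (fm_ne h)
  rw [finrank_fin_fun] at h1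
  omega

end CONF3

open CONF3 in
theorem CONF3_thm : Stmt_CONF3 := by
  obtain ⟨z, hz⟩ := exists_z
  have hz0 : z ≠ 0 := by
    rintro rfl
    norm_num at hz
  refine ⟨fun i => Submodule.span ℂ {pt z i}, fun l => LinearMap.ker (fm (ln z l)), ?_, ?_, ?_, ?_⟩
  · intro i
    apply finrank_span_singleton
    intro h
    fin_cases i
    · exact one_ne_zero (congrFun h 0)
    · exact one_ne_zero (congrFun h 1)
    · exact one_ne_zero (congrFun h 2)
    · exact one_ne_zero (congrFun h 1)
    · exact one_ne_zero (congrFun h 1)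
    · exact one_ne_zero (congrFun h 1)
    · exact one_ne_zero (congrFun h 2)
    · exact one_ne_zero (congrFun h 2)
    · exact one_ne_zero (congrFun h 1)
  · intro l
    fin_cases l
    · exact finrank_ker (i := 2) one_ne_zero
    · exact finrank_ker (i := 1) one_ne_zero
    · exact finrank_ker (i := 0) one_ne_zero
    · exact finrank_ker (i := 1) one_ne_zero
    · exact finrank_ker (i := 0) one_ne_zero
    · exact finrank_ker (i := 0) one_ne_zero
    · exact finrank_ker (i := 0) one_ne_zero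
    · exact finrank_ker (i := 0) one_ne_zero
    · exact finrank_ker (i := 0) one_ne_zero
    · exact finrank_ker (i := 1) one_ne_zero
  · intro l t
    rw [Submodule.span_singleton_le_iff_mem, LinearMap.mem_ker, fm_apply]
    fin_cases l <;> fin_cases t <;> simp [pt, ln, lines] <;>
      linear_combination hz
  · intro s hs
    simp only [Submodule.span_singleton_le_iff_mem, LinearMap.mem_ker, fm_apply]
    simp only [offs, List.mem_cons, List.not_mem_nil, or_false] at hs
    rcases hs with rfl | rfl | rfl | rfl | rfl | rfl | rfl | rfl | rfl | rfl <;>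
      simp [pt, ln, hz0]

end Pool.Agent.MinRank
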