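import Mathlib

/-!
# Minimum rank of a graph over a field
-/

namespace Pool.Agent.MinRank

/-- The matrix `A` is symmetric, and its nonzero entries outside the diagonal are at the edges
of the graph `G`. The diagonal is arbitrary. -/
def Describes {V F : Type} [Zero F] (G : SimpleGraph V) (A : Matrix V V F) : Prop :=
  A.IsSymm ∧ ∀ i j, i ≠ j → (A i j ≠ 0 ↔ G.Adj i j)

/-- The minimum rank of the graph `G` over the field `F`. -/
noncomputable def mr (F : Type) [Field F] {n : ℕ} (G : SimpleGraph (Fin n)) : ℕ :=
  sInf {m | ∃ A : Matrix (Fin n) (Fin n) F, Describes G A ∧ A.rank = m}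

end Pool.Agent.MinRank
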