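import Pool.Agent.MinRank.Stmts

/-!
# Real and complex minimum rank: the exact extremal function (module FINAL)
-/

open Module Matrix

namespace Pool.Agent.MinRank

namespace FINAL

/-- The adjacency matrix describes the graph. -/
theorem set_nonempty (F : Type) [Field F] {n : ℕ} (G : SimpleGraph (Fin n)) :
    {m | ∃ A : Matrix (Fin n) (Fin n) F, Describes G A ∧ A.rank = m}.Nonempty := by
  classical
  refine ⟨_, G.adjMatrix F, ⟨?_, ?_⟩, rfl⟩
  · exact SimpleGraph.isSymm_adjMatrix G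
  · intro i j _
    rw [SimpleGraph.adjMatrix_apply]
    split_ifs with h
    · simp [h]
    · simp [h]

theorem exists_matrix (F : Type) [Field F] {n : ℕ} (G : SimpleGraph (Fin n)) :
    ∃ A : Matrix (Fin n) (Fin n) F, Describes G A ∧ A.rank = mr F G :=
  Nat.sInf_mem (set_nonempty F G)

theorem mr_le (F : Type) [Field F] {n : ℕ} (G : SimpleGraph (Fin n))
    (A : Matrix (Fin n) (Fin n) F) (h : Describes G A) : mr F G ≤ A.rank :=
  Nat.sInf_le ⟨A, h, rfl⟩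

/-- The upper bound. -/
theorem upper (hUP2 : Stmt_UP2) (hUP3 : Stmt_UP3) {n : ℕ} (G : SimpleGraph (Fin n)) {k : ℕ}
    (hk : 2 ≤ k) (h : mr ℂ G = k) : mr ℝ G ≤ 2 * k - 2 := by
  obtain ⟨A, hA, hr⟩ := exists_matrix ℂ G
  rw [h] at hr
  have key : ∃ B : Matrix (Fin n) (Fin n) ℝ, B.IsSymm ∧
      (∀ i j, i ≠ j → (B i j ≠ 0 ↔ A i j ≠ 0)) ∧ B.rank ≤ 2 * k - 2 := by
    rcases hk.eq_or_lt with h2 | h3
    · subst h2
      obtain ⟨B, h1, h2, h3⟩ := hUP2 n A hA.1 hr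
      exact ⟨B, h1, h2, h3.trans (by norm_num)⟩
    · obtain ⟨B, h1, h2, h4⟩ := hUP3 n A hA.1 (by omega)
      exact ⟨B, h1, h2, h4.trans (by rw [hr])⟩
  obtain ⟨B, h1, h2, h3⟩ := key
  exact (mr_le ℝ G B ⟨h1, fun i j hij => (h2 i j hij).trans (hA.2 i j hij)⟩).trans h3

end FINAL

theorem FINAL_thm (hGRAPH : Stmt_GRAPH) (hUP2 : Stmt_UP2) (hUP3 : Stmt_UP3) : Stmt_FINAL := by
  intro k hk
  constructor
  · obtain ⟨n, G, h1, h2⟩ := hGRAPH k hk
    exact ⟨n, G, h1, le_antisymm (FINAL.upper hUP2 hUP3 G hk h1) h2⟩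
  · rintro m ⟨n, G, h1, rfl⟩
    exact FINAL.upper hUP2 hUP3 G hk h1

end Pool.Agent.MinRank
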