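import Mathlib
import Pool.Agent.MinRank.Stmts

/-!
# Gallai's theorem for subspaces of the same rank
-/

open Module Matrix

namespace Pool.Agent.MinRank

namespace GAL1

variable {V : Type} [AddCommGroup V] [Module ℂ V] {α : Type}

/-- Projections with the same kernel, as a set of idempotents. -/
def Fam (P : α → Module.End ℂ V) : Prop := ∀ x y, P x * P y = P x

/-- The coefficient of a word with free letters. -/
noncomputable def coef {ι : Type} [Fintype ι] (f : ι → Option α) : ℂ :=
  open Classical in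
  if (Finset.univ.filter (fun i => f i = none)).card = 0 then 1 else
    ((Finset.univ.filter (fun i => f i = none)).card : ℂ)

theorem coef_ne {ι : Type} [Fintype ι] (f : ι → Option α) : coef f ≠ 0 := by
  classical
  rw [coef]
  split_ifs with h
  · exact one_ne_zero
  · exact_mod_cast h

/-- The sum over the fixed letters. -/
noncomputable def fixedSum {ι : Type} [Fintype ι] (P : α → Module.End ℂ V) (x0 : α)
    (f : ι → Option α) : Module.End ℂ V :=
  ∑ i, (f i).elim 0 (fun y => P y - P x0)

theorem pi_fixed {ι : Type} [Fintype ι] {P : α → Module.End ℂ V} (hP : Fam P) (x0 : α)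
    (f : ι → Option α) : P x0 * fixedSum P x0 f = 0 := by
  rw [fixedSum, Finset.mul_sum]
  refine Finset.sum_eq_zero fun i _ => ?_
  cases f i with
  | none => simp
  | some y =>
    change P x0 * (P y - P x0) = 0
    rw [mul_sub, hP, hP, sub_self]

theorem fixed_pi {ι : Type} [Fintype ι] {P : α → Module.End ℂ V} (hP : Fam P) (x0 : α)
    (f : ι → Option α) : fixedSum P x0 f * P x0 = fixedSum P x0 f := by
  rw [fixedSum, Finset.sum_mul]
  refine Finset.sum_congr rfl fun i _ => ?_
  cases f i with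
  | none => simp
  | some y =>
    change (P y - P x0) * P x0 = P y - P x0
    rw [sub_mul, hP, hP]

theorem inv_calc (p s B : Module.End ℂ V) (a : ℂ) (ha : a ≠ 0) (h0 : p + s = 1) (h1 : p * p = p)
    (h2 : p * s = 0)
    (h3 : s * p = 0) (h4 : s * s = s) (h5 : p * B = 0) (h6 : B * p = B) (h7 : s * B = B)
    (h8 : B * s = 0) (h9 : B * B = 0) :
    (p + a • s + B) * (p + a⁻¹ • s - a⁻¹ • B) = 1 ∧
      (p + a⁻¹ • s - a⁻¹ • B) * (p + a • s + B) = 1 := by
  constructor
  · simp only [mul_add, add_mul, mul_sub, smul_mul_assoc, mul_smul_comm, h1, h2, h3,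
      h4, h5, h6, h7, h8, h9, smul_zero, smul_add, zero_add, add_zero, sub_zero, smul_smul,
      inv_mul_cancel₀ ha, mul_inv_cancel₀ ha, one_smul]
    rw [← h0]
    abel
  · simp only [mul_add, add_mul, sub_mul, smul_mul_assoc, mul_smul_comm, h1, h2, h3,
      h4, h5, h6, h7, h8, h9, smul_zero, smul_add, zero_add, add_zero, sub_zero, smul_smul,
      inv_mul_cancel₀ ha, mul_inv_cancel₀ ha, one_smul]
    rw [← h0]
    abel

theorem exists_equiv {ι : Type} [Fintype ι] {P : α → Module.End ℂ V} (hP : Fam P) (x0 : α)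
    (f : ι → Option α) : ∃ g : V ≃ₗ[ℂ] V,
      (g : V →ₗ[ℂ] V) = P x0 + coef f • (1 - P x0) + fixedSum P x0 f := by
  have h1 : P x0 * P x0 = P x0 := hP _ _
  have h5 := pi_fixed hP x0 f
  have h6 := fixed_pi hP x0 f
  have h9 : fixedSum P x0 f * fixedSum P x0 f = 0 := by
    have h : fixedSum P x0 f * P x0 * fixedSum P x0 f = fixedSum P x0 f * fixedSum P x0 f := by
      rw [h6]
    rw [← h, mul_assoc, h5, mul_zero]
  obtain ⟨e1, e2⟩ := inv_calc (P x0) (1 - P x0) (fixedSum P x0 f) (coef f) (coef_ne f)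
    (by abel) h1 (by rw [mul_sub, mul_one, h1, sub_self]) (by rw [sub_mul, one_mul, h1, sub_self])
    (by rw [sub_mul, one_mul, mul_sub, mul_one, h1, sub_self, sub_zero]) h5 h6
    (by rw [sub_mul, one_mul, h5, sub_zero]) (by rw [mul_sub, mul_one, h6, sub_self]) h9
  exact ⟨LinearEquiv.ofLinearMap _ _ e1 e2, rfl⟩

/-- The effect on the projections. -/
theorem act {ι : Type} [Fintype ι] {P : α → Module.End ℂ V} (hP : Fam P) (x0 : α)
    (f : ι → Option α) (x : α) :
    (P x0 + coef f • (1 - P x0) + fixedSum P x0 f) * P x =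
      P x0 + coef f • (P x - P x0) + fixedSum P x0 f := by
  have h6 : fixedSum P x0 f * P x = fixedSum P x0 f := by
    have h := fixed_pi hP x0 f
    have h2 : fixedSum P x0 f * P x0 * P x = fixedSum P x0 f * P x := by
      rw [h]
    rw [← h2, mul_assoc, hP, h]
  rw [add_mul, add_mul, smul_mul_assoc, sub_mul, one_mul, hP, h6]

theorem word_sum {ι : Type} [Fintype ι] (P : α → Module.End ℂ V) (x0 : α)
    (l : Combinatorics.Line α ι) (x : α) :
    ∑ i, (P (l x i) - P x0) = coef l.idxFun • (P x - P x0) + fixedSum P x0 l.idxFun := by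
  classical
  have hne : ¬ (Finset.univ.filter (fun i => l.idxFun i = none)).card = 0 := by
    obtain ⟨i, hi⟩ := l.proper
    rw [Finset.card_eq_zero, Finset.filter_eq_empty_iff]
    intro h
    exact h (Finset.mem_univ i) hi
  have hco : coef l.idxFun = ((Finset.univ.filter (fun i => l.idxFun i = none)).card : ℂ) := by
    rw [coef, if_neg]
    convert hne
  have h1 : ∀ i, P (l x i) - P x0 = (if l.idxFun i = none then P x - P x0 else 0) +
      (l.idxFun i).elim 0 (fun y => P y - P x0) := by
    intro i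
    rw [Combinatorics.Line.coe_apply]
    cases h : l.idxFun i with
    | none => simp
    | some y => simp
  rw [Finset.sum_congr rfl (fun i _ => h1 i), Finset.sum_add_distrib, ← Finset.sum_filter,
    Finset.sum_const, hco, fixedSum, Nat.cast_smul_eq_nsmul]

end GAL1

theorem GAL1_thm (hCOMPL : Stmt_COMPL) : Stmt_GAL1 := by
  classical
  intro V _ _ _ S m hS κ _
  obtain ⟨F, hF⟩ := hCOMPL V S m hS
  rcases S.eq_empty_or_nonempty with rfl | ⟨W0, hW0⟩
  · refine ⟨{LinearEquiv.refl ℂ V}, fun C => ⟨LinearEquiv.refl ℂ V, Finset.mem_singleton_self _,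
      C ⊥, fun W hW => ?_⟩⟩
    exact absurd hW (Finset.notMem_empty W)
  let P : S → Module.End ℂ V := fun W => (W : Submodule ℂ V).projection F (hF W W.2)
  have hP : GAL1.Fam P := by
    intro x y
    apply LinearMap.ext
    intro v
    change P x (P y v) = P x v
    have h1 : v - P y v ∈ F := Submodule.sub_projection_mem (hF y y.2) v
    have h2 : P x (v - P y v) = 0 := Submodule.projection_apply_of_mem_right (hF x x.2) h1
    rw [map_sub, sub_eq_zero] at h2
    exact h2.symm
  have hR : ∀ x : S, LinearMap.range (P x) = (x : Submodule ℂ V) := fun x =>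
    Submodule.range_projection (hF x x.2)
  obtain ⟨ι, _, hι⟩ := Combinatorics.Line.exists_mono_in_high_dimension S κ
  let x0 : S := ⟨W0, hW0⟩
  choose g hg using fun f : ι → Option S => GAL1.exists_equiv hP x0 f
  refine ⟨Finset.univ.image g, fun C => ?_⟩
  obtain ⟨l, c, hl⟩ := hι (fun w => C (LinearMap.range (P x0 + ∑ i, (P (w i) - P x0))))
  refine ⟨g l.idxFun, Finset.mem_image_of_mem g (Finset.mem_univ _), c, fun W hW => ?_⟩
  have h1 := hl ⟨W, hW⟩
  rw [← h1]
  have h2 : W = LinearMap.range (P ⟨W, hW⟩) := (hR ⟨W, hW⟩).symm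
  have h3 : W.map (g l.idxFun : V →ₗ[ℂ] V) =
      LinearMap.range ((g l.idxFun : V →ₗ[ℂ] V) ∘ₗ P ⟨W, hW⟩) := by
    rw [LinearMap.range_comp, hR]
  rw [h3, hg]
  congr 2
  have h4 := GAL1.act hP x0 l.idxFun ⟨W, hW⟩
  refine Eq.trans h4 ?_
  rw [add_assoc, GAL1.word_sum]

end Pool.Agent.MinRank
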