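import Pool.Agent.MinRank.Stmts

/-!
# GALM: all ranks at the same time
-/

open Module Matrix

namespace Pool.Agent.MinRank

namespace GALM

theorem step (hGAL1 : Stmt_GAL1) (V : Type) [AddCommGroup V] [Module ℂ V] [FiniteDimensional ℂ V]
    (κ : Type) [Finite κ] (m : ℕ) : ∀ S : Finset (Submodule ℂ V),
    ∃ T : Finset (V ≃ₗ[ℂ] V), ∀ C : Submodule ℂ V → κ,
      ∃ g ∈ T, ∃ c : ℕ → κ, ∀ W ∈ S, finrank ℂ W < m →
        C (W.map (g : V →ₗ[ℂ] V)) = c (finrank ℂ W) := by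
  classical
  induction m with
  | zero =>
    intro S
    refine ⟨{LinearEquiv.refl ℂ V}, fun C => ⟨LinearEquiv.refl ℂ V, Finset.mem_singleton_self _,
      fun _ => C ⊥, fun W _ hW => ?_⟩⟩
    exact absurd hW (Nat.not_lt_zero _)
  | succ m ih =>
    intro S
    obtain ⟨T1, hT1⟩ := hGAL1 V (S.filter fun W => finrank ℂ W = m) m
      (fun W hW => (Finset.mem_filter.mp hW).2) κ
    obtain ⟨T', hT'⟩ := ih ((T1 ×ˢ S).image fun p => p.2.map (p.1 : V →ₗ[ℂ] V))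
    refine ⟨(T1 ×ˢ T').image fun p => p.1.trans p.2, fun C => ?_⟩
    obtain ⟨h, hh, c', hc'⟩ := hT' C
    obtain ⟨t, ht, c1, hc1⟩ := hT1 (fun W => C (W.map (h : V →ₗ[ℂ] V)))
    refine ⟨t.trans h, Finset.mem_image.mpr ⟨(t, h), Finset.mem_product.mpr ⟨ht, hh⟩, rfl⟩,
      fun n => if n = m then c1 else c' n, fun W hW hlt => ?_⟩
    have e1 : W.map ((t.trans h : V ≃ₗ[ℂ] V) : V →ₗ[ℂ] V) =
        (W.map (t : V →ₗ[ℂ] V)).map (h : V →ₗ[ℂ] V) := by
      rw [← Submodule.map_comp]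
      rfl
    rw [e1]
    by_cases hm : finrank ℂ W = m
    · have h1 := hc1 W (Finset.mem_filter.mpr ⟨hW, hm⟩)
      simp only [hm, if_true]
      exact h1
    · have h2 : finrank ℂ (W.map (t : V →ₗ[ℂ] V)) = finrank ℂ W :=
        LinearEquiv.finrank_map_eq t W
      have h3 : finrank ℂ (W.map (t : V →ₗ[ℂ] V)) < m := by
        rw [h2]
        omega
      have h4 := hc' (W.map (t : V →ₗ[ℂ] V))
        (Finset.mem_image.mpr ⟨(t, W), Finset.mem_product.mpr ⟨ht, hW⟩, rfl⟩) h3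
      rw [h4, h2]
      simp only [hm, if_false]

end GALM

theorem GALM_thm (hGAL1 : Stmt_GAL1) : Stmt_GALM := by
  intro V _ _ _ S κ _
  obtain ⟨T, hT⟩ := GALM.step hGAL1 V κ (finrank ℂ V + 1) S
  refine ⟨T, fun C => ?_⟩
  obtain ⟨g, hg, c, hc⟩ := hT C
  exact ⟨g, hg, c, fun W hW => hc W hW (Nat.lt_succ_of_le (Submodule.finrank_le W))⟩

end Pool.Agent.MinRank
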