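import Pool.Agent.MinRank.Stmts

/-!
# GEN: generic vectors for functions which are quadratic on all lines
-/

open Module Matrix

namespace Pool.Agent.MinRank

namespace GEN

open Polynomial in
theorem fin_bad {V : Type} [AddCommGroup V] [Module ℂ V] (f : V → ℂ)
    (h : ∀ v w : V, ∃ a b c : ℂ, ∀ t : ℂ, f (v + t • w) = a + b * t + c * t ^ 2)
    (v u : V) (t0 : ℂ) (ht0 : f (v + t0 • u) ≠ 0) : {t : ℂ | f (v + t • u) = 0}.Finite := by
  obtain ⟨a, b, c, habc⟩ := h v u
  have hev : ∀ t : ℂ, (C a + C b * X + C c * X ^ 2 : ℂ[X]).eval t = f (v + t • u) := by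
    intro t
    rw [habc t]
    simp
  have hP : (C a + C b * X + C c * X ^ 2 : ℂ[X]) ≠ 0 := by
    intro h0
    apply ht0
    rw [← hev, h0, eval_zero]
  refine (Polynomial.finite_setOf_isRoot hP).subset ?_
  intro t ht
  change (C a + C b * X + C c * X ^ 2 : ℂ[X]).eval t = 0
  rw [hev]
  exact ht

end GEN

theorem GEN_thm : Stmt_GEN := by
  intro V _ _ ι I F
  classical
  induction I using Finset.induction_on with
  | empty =>
    intro _
    exact ⟨0, by simp⟩
  | insert i I hi ih =>
    intro hF
    obtain ⟨v, hv⟩ := ih (fun j hj => hF j (Finset.mem_insert_of_mem hj))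
    obtain ⟨⟨w, hw⟩, -⟩ := hF i (Finset.mem_insert_self i I)
    have hfin : (⋃ j ∈ insert i I, {t : ℂ | F j (v + t • (w - v)) = 0}).Finite := by
      refine Set.Finite.biUnion (Finset.finite_toSet (insert i I)) ?_
      intro j hj
      rw [Finset.mem_coe] at hj
      rcases Finset.mem_insert.mp hj with h | h
      · subst h
        apply GEN.fin_bad (F j) (hF j hj).2 v (w - v) 1
        rw [one_smul, add_sub_cancel]
        exact hw
      · apply GEN.fin_bad (F j) (hF j hj).2 v (w - v) 0
        rw [zero_smul, add_zero]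
        exact hv j h
    obtain ⟨t, ht⟩ := hfin.exists_notMem
    refine ⟨v + t • (w - v), fun j hj h0 => ht ?_⟩
    rw [Set.mem_iUnion₂]
    exact ⟨j, hj, h0⟩

end Pool.Agent.MinRank
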