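import Pool.Agent.MinRank.Stmts

/-!
# From patterns to graphs
-/

open Module Matrix

namespace Pool.Agent.MinRank

namespace GRAPH

variable {k : ℕ} (X Y : Finset (Fin k → ℂ))

/-- The vertices: the vectors in `X` and `Y`, and two copies of the standard basis. -/
abbrev Vt : Type := (X ⊕ Fin k) ⊕ (Y ⊕ Fin k)

/-- The vector of a vertex. -/
def vec : Vt X Y → (Fin k → ℂ)
  | Sum.inl (Sum.inl x) => (x : Fin k → ℂ)
  | Sum.inl (Sum.inr a) => Pi.single a 1
  | Sum.inr (Sum.inl y) => (y : Fin k → ℂ)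
  | Sum.inr (Sum.inr a) => Pi.single a 1

/-- The numbering of the vertices. -/
noncomputable def eqv : Vt X Y ≃ Fin (Fintype.card (Vt X Y)) := Fintype.equivFin _

/-- The graph. -/
noncomputable def gr : SimpleGraph (Fin (Fintype.card (Vt X Y))) where
  Adj i j := i ≠ j ∧ vec X Y ((eqv X Y).symm i) ⬝ᵥ vec X Y ((eqv X Y).symm j) ≠ 0
  symm := ⟨by
    rintro i j ⟨h1, h2⟩
    refine ⟨h1.symm, ?_⟩
    rwa [dotProduct_comm]⟩
  loopless := ⟨fun i h => h.1 rfl⟩

/-- The complex matrix of the products. -/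
noncomputable def mat : Matrix (Fin (Fintype.card (Vt X Y))) (Fin (Fintype.card (Vt X Y))) ℂ :=
  fun i j => vec X Y ((eqv X Y).symm i) ⬝ᵥ vec X Y ((eqv X Y).symm j)

theorem mat_describes : Describes (gr X Y) (mat X Y) := by
  refine ⟨?_, ?_⟩
  · ext i j
    exact dotProduct_comm (vec X Y ((eqv X Y).symm j)) (vec X Y ((eqv X Y).symm i))
  · intro i j hij
    constructor
    · intro h
      exact ⟨hij, h⟩
    · intro h
      exact h.2

theorem mat_rank_le : (mat X Y).rank ≤ k := by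
  have h1 : mat X Y = (Matrix.of fun i (a : Fin k) => vec X Y ((eqv X Y).symm i) a) *
      (Matrix.of fun (a : Fin k) j => vec X Y ((eqv X Y).symm j) a) := by
    ext i j
    rw [Matrix.mul_apply]
    rfl
  rw [h1]
  refine (Matrix.rank_mul_le_left _ _).trans ?_
  refine (Matrix.rank_le_card_width _).trans ?_
  rw [Fintype.card_fin]

theorem entry {F : Type} [Field F] (A : Matrix (Fin (Fintype.card (Vt X Y)))
    (Fin (Fintype.card (Vt X Y))) F) (hA : Describes (gr X Y) A) (p : X ⊕ Fin k) (q : Y ⊕ Fin k) :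
    A (eqv X Y (Sum.inl p)) (eqv X Y (Sum.inr q)) ≠ 0 ↔
      vec X Y (Sum.inl p) ⬝ᵥ vec X Y (Sum.inr q) ≠ 0 := by
  have hne : eqv X Y (Sum.inl p) ≠ eqv X Y (Sum.inr q) := by
    intro h
    have h1 := (eqv X Y).injective h
    exact Sum.inl_ne_inr h1
  rw [hA.2 _ _ hne]
  change (_ ∧ _) ↔ _
  rw [Equiv.symm_apply_apply, Equiv.symm_apply_apply]
  exact ⟨fun h => h.2, fun h => ⟨hne, h⟩⟩

theorem le_rank {F : Type} [Field F] (A : Matrix (Fin (Fintype.card (Vt X Y)))
    (Fin (Fintype.card (Vt X Y))) F) (hA : Describes (gr X Y) A) : k ≤ A.rank := by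
  classical
  let B : Matrix (Fin k) (Fin k) F := A.submatrix
    (fun a => eqv X Y (Sum.inl (Sum.inr a))) (fun a => eqv X Y (Sum.inr (Sum.inr a)))
  have hB : ∀ a b, B a b ≠ 0 ↔ a = b := by
    intro a b
    have h1 := entry X Y A hA (Sum.inr a) (Sum.inr b)
    have h2 : vec X Y (Sum.inl (Sum.inr a)) ⬝ᵥ vec X Y (Sum.inr (Sum.inr b)) =
        if a = b then 1 else 0 := by
      change (Pi.single a 1 : Fin k → ℂ) ⬝ᵥ (Pi.single b 1 : Fin k → ℂ) = _
      rw [single_dotProduct, one_mul, Pi.single_apply]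
    rw [h2] at h1
    change A _ _ ≠ 0 ↔ _
    rw [h1]
    split_ifs with h
    · simp [h]
    · simp [h]
  have hd : B = Matrix.diagonal (fun a => B a a) := by
    ext a b
    by_cases h : a = b
    · rw [h, Matrix.diagonal_apply_eq]
    · rw [Matrix.diagonal_apply_ne _ h]
      by_contra h1
      exact h ((hB a b).mp h1)
  have hdet : B.det ≠ 0 := by
    rw [hd, Matrix.det_diagonal]
    exact Finset.prod_ne_zero_iff.mpr (fun a _ => (hB a a).mpr rfl)
  have hr : B.rank = k := by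
    rw [Matrix.rank_of_det_ne_zero hdet, Fintype.card_fin]
  exact hr.symm.le.trans (Matrix.rank_submatrix_le A _ _)

theorem mr_complex : mr ℂ (gr X Y) = k := by
  have hmem : (mat X Y).rank ∈
      {m | ∃ A : Matrix (Fin (Fintype.card (Vt X Y))) (Fin (Fintype.card (Vt X Y))) ℂ,
        Describes (gr X Y) A ∧ A.rank = m} := ⟨mat X Y, mat_describes X Y, rfl⟩
  apply le_antisymm
  · exact (Nat.sInf_le hmem).trans (mat_rank_le X Y)
  · refine le_csInf ⟨_, hmem⟩ ?_
    rintro m ⟨A, hA, rfl⟩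
    exact le_rank X Y A hA

theorem exists_describes {n : ℕ} (G : SimpleGraph (Fin n)) :
    ∃ A : Matrix (Fin n) (Fin n) ℝ, Describes G A := by
  classical
  refine ⟨fun i j => if G.Adj i j then 1 else 0, ?_, ?_⟩
  · ext i j
    change (if G.Adj j i then (1 : ℝ) else 0) = if G.Adj i j then 1 else 0
    simp only [G.adj_comm]
  · intro i j _
    by_cases h : G.Adj i j
    · simp [h]
    · simp [h]

end GRAPH

open GRAPH in
/-- GRAPH: the lower bound. -/
theorem GRAPH_thm (hPAT : Stmt_PAT) : Stmt_GRAPH := by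
  intro k hk
  obtain ⟨X, Y, hXY⟩ := hPAT k hk
  refine ⟨_, gr X Y, mr_complex X Y, ?_⟩
  obtain ⟨A₀, hA₀⟩ := exists_describes (gr X Y)
  refine le_csInf ⟨A₀.rank, A₀, hA₀, rfl⟩ ?_
  rintro m ⟨A, hA, rfl⟩
  let N : Matrix X Y ℝ := A.submatrix
    (fun x => eqv X Y (Sum.inl (Sum.inl x))) (fun y => eqv X Y (Sum.inr (Sum.inl y)))
  have hN : Pattern N := by
    intro u v
    have h1 := entry X Y A hA (Sum.inl u) (Sum.inl v)
    exact not_iff_not.mp h1
  exact (hXY N hN).trans (Matrix.rank_submatrix_le A _ _)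

end Pool.Agent.MinRank
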