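import Pool.Agent.MinRank.Stmts

/-!
# HESSE: the Hesse configuration does not exist in the real projective plane
-/

namespace Pool.Agent.MinRank

namespace HESSE

variable {Q : Type} [AddCommGroup Q] [Module ℝ Q]

theorem li3 {u v w : Q} (h : LinearIndependent ℝ ![u, v, w]) {r s t : ℝ}
    (e : r • u + s • v + t • w = 0) : r = 0 ∧ s = 0 ∧ t = 0 := by
  have h1 := Fintype.linearIndependent_iff.mp h ![r, s, t] (by
    rw [Fin.sum_univ_three]
    simpa using e)
  exact ⟨h1 0, h1 1, h1 2⟩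

theorem li2 {u v : Q} (h : LinearIndependent ℝ ![u, v]) {r s : ℝ}
    (e : r • u + s • v = 0) : r = 0 ∧ s = 0 := by
  have h1 := Fintype.linearIndependent_iff.mp h ![r, s] (by
    rw [Fin.sum_univ_two]
    simpa using e)
  exact ⟨h1 0, h1 1⟩

theorem dep3 {u v w : Q} (h : ¬ LinearIndependent ℝ ![u, v, w]) :
    ∃ r s t : ℝ, r • u + s • v + t • w = 0 ∧ ¬ (r = 0 ∧ s = 0 ∧ t = 0) := by
  obtain ⟨g, hg, i, hi⟩ := Fintype.not_linearIndependent_iff.mp h
  refine ⟨g 0, g 1, g 2, ?_, ?_⟩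
  · rw [Fin.sum_univ_three] at hg
    simpa using hg
  · rintro ⟨h0, h1, h2⟩
    fin_cases i
    · exact hi h0
    · exact hi h1
    · exact hi h2

theorem comb {u v w : Q} (h : ¬ LinearIndependent ℝ ![u, v, w])
    (hi : ∀ r s : ℝ, r • u + s • v = 0 → r = 0 ∧ s = 0) : ∃ p q : ℝ, w = p • u + q • v := by
  obtain ⟨r, s, t, h1, h2⟩ := dep3 h
  have ht : t ≠ 0 := by
    rintro rfl
    rw [zero_smul, add_zero] at h1
    obtain ⟨h3, h4⟩ := hi r s h1
    exact h2 ⟨h3, h4, rfl⟩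
  refine ⟨-(r / t), -(s / t), ?_⟩
  have h3 : t • w = -(r • u) - s • v := by
    have h4 : t • w = (r • u + s • v + t • w) - r • u - s • v := by abel
    rw [h4, h1]
    abel
  have h5 : w = t⁻¹ • (t • w) := by rw [smul_smul, inv_mul_cancel₀ ht, one_smul]
  rw [h5, h3, smul_sub, smul_neg, smul_smul, smul_smul]
  rw [show t⁻¹ * r = r / t by ring, show t⁻¹ * s = s / t by ring]
  module

/-- Dependent vectors have determinant zero. -/
theorem det0 {o a b : Q} (h : LinearIndependent ℝ ![o, a, b]) {u0 u1 u2 v0 v1 v2 w0 w1 w2 : ℝ}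
    {u v w : Q} (hu : u = u0 • o + u1 • a + u2 • b) (hv : v = v0 • o + v1 • a + v2 • b)
    (hw : w = w0 • o + w1 • a + w2 • b) (hd : ¬ LinearIndependent ℝ ![u, v, w]) :
    u0 * (v1 * w2 - v2 * w1) - u1 * (v0 * w2 - v2 * w0) + u2 * (v0 * w1 - v1 * w0) = 0 := by
  obtain ⟨r, s, t, h1, h2⟩ := dep3 hd
  have h3 : (r * u0 + s * v0 + t * w0) • o + (r * u1 + s * v1 + t * w1) • a +
      (r * u2 + s * v2 + t * w2) • b = 0 := by
    rw [← h1, hu, hv, hw]
    module
  obtain ⟨e0, e1, e2⟩ := li3 h h3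
  by_contra hD
  apply h2
  refine ⟨?_, ?_, ?_⟩
  · have : r * (u0 * (v1 * w2 - v2 * w1) - u1 * (v0 * w2 - v2 * w0) +
        u2 * (v0 * w1 - v1 * w0)) = 0 := by
      linear_combination (v1 * w2 - v2 * w1) * e0 - (v0 * w2 - v2 * w0) * e1 +
        (v0 * w1 - v1 * w0) * e2
    exact (mul_eq_zero.mp this).resolve_right hD
  · have : s * (u0 * (v1 * w2 - v2 * w1) - u1 * (v0 * w2 - v2 * w0) +
        u2 * (v0 * w1 - v1 * w0)) = 0 := by
      linear_combination (u2 * w1 - u1 * w2) * e0 + (u0 * w2 - u2 * w0) * e1 +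
        (u1 * w0 - u0 * w1) * e2
    exact (mul_eq_zero.mp this).resolve_right hD
  · have : t * (u0 * (v1 * w2 - v2 * w1) - u1 * (v0 * w2 - v2 * w0) +
        u2 * (v0 * w1 - v1 * w0)) = 0 := by
      linear_combination (u1 * v2 - u2 * v1) * e0 + (u2 * v0 - u0 * v2) * e1 +
        (u0 * v1 - u1 * v0) * e2
    exact (mul_eq_zero.mp this).resolve_right hD

/-- The third coordinate of a vector which is independent of the first two basis vectors. -/
theorem third {o a b : Q} {t0 t1 t2 : ℝ} {t : Q} (ht : t = t0 • o + t1 • a + t2 • b)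
    (h : LinearIndependent ℝ ![o, a, t]) : t2 ≠ 0 := by
  rintro rfl
  have h1 : (-t0) • o + (-t1) • a + (1 : ℝ) • t = 0 := by
    rw [ht]
    module
  exact one_ne_zero (li3 h h1).2.2

/-- The algebra. -/
theorem alg {p q r e1 e2 g2 G3 m2 H2 : ℝ} (hp : p ≠ 0)
    (he2 : e2 ≠ 0) (hG3 : G3 ≠ 0) (hm2 : m2 ≠ 0)
    (E1 : e1 * (g2 * q * r - G3 * q) = e2 * g2 * p * r)
    (E3 : m2 * p * e2 = H2 * e1) (E4 : g2 * q * m2 * r = G3 * H2) : False := by
  have he1 : e1 ≠ 0 := by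
    rintro rfl
    rw [mul_zero] at E3
    exact mul_ne_zero (mul_ne_zero hm2 hp) he2 E3
  have hH2 : H2 ≠ 0 := by
    rintro rfl
    rw [zero_mul] at E3
    exact mul_ne_zero (mul_ne_zero hm2 hp) he2 E3
  set z : ℝ := e1 * q / (p * e2) with hz
  set w : ℝ := g2 * r / G3 with hw
  have hzw : z * w = 1 := by
    rw [hz, hw, div_mul_div_comm, div_eq_one_iff_eq (mul_ne_zero (mul_ne_zero hp he2) hG3)]
    apply mul_left_cancel₀ hm2
    apply mul_left_cancel₀ hH2
    linear_combination (H2 * e1) * E4 - G3 * H2 * E3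
  have h1 : z * (w - 1) = w := by
    have h2 : z * (w - 1) * (p * e2 * G3) = w * (p * e2 * G3) := by
      rw [hz, hw]
      field_simp
      linear_combination E1
    exact mul_right_cancel₀ (mul_ne_zero (mul_ne_zero hp he2) hG3) h2
  have h3 : w = 1 - z := by linear_combination hzw - h1
  rw [h3] at hzw
  nlinarith [sq_nonneg (2 * z - 1)]

end HESSE

open HESSE in
theorem HESSE_thm : Stmt_HESSE := by
  intro Q _ _ o a b c d e f g h i1 i2 i3 i4 i5 i6 i7 i8 i9 d1 d2 d3 d4 d5 d6 d7 d8 d9 d10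
  -- coordinates
  obtain ⟨c1, c2, hc⟩ := comb d3 (fun r s hrs => by
    have := li3 i1 (r := 0) (s := r) (t := s) (by rw [zero_smul, zero_add]; exact hrs)
    exact ⟨this.2.1, this.2.2⟩)
  obtain ⟨D1, D2, hd⟩ := comb d4 (fun r s hrs => by
    have := li3 i2 (r := r) (s := 0) (t := s) (by rw [zero_smul, add_zero]; exact hrs)
    exact ⟨this.1, this.2.2⟩)
  obtain ⟨e1, e2, he⟩ := comb d1 (fun r s hrs => by
    have := li3 i1 (r := r) (s := s) (t := 0) (by rw [zero_smul, add_zero]; exact hrs)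
    exact ⟨this.1, this.2.1⟩)
  obtain ⟨f1, f2, hf⟩ := comb d2 (fun r s hrs => by
    have := li3 i1 (r := r) (s := 0) (t := s) (by rw [zero_smul, add_zero]; exact hrs)
    exact ⟨this.1, this.2.2⟩)
  have hc' : c = (0 : ℝ) • o + c1 • a + c2 • b := by rw [hc]; module
  have hd' : d = D1 • o + (D2 * c1) • a + (D2 * c2) • b := by rw [hd, hc]; module
  have he' : e = e1 • o + e2 • a + (0 : ℝ) • b := by rw [he]; module
  have hf' : f = f1 • o + (0 : ℝ) • a + f2 • b := by rw [hf]; module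
  have hc2 : c2 ≠ 0 := third hc' i2
  have hc1 : c1 ≠ 0 := by
    rintro rfl
    have h1 : (-c2) • b + (1 : ℝ) • c = 0 := by rw [hc]; module
    exact one_ne_zero (li2 i8 h1).2
  have hD2c2 : D2 * c2 ≠ 0 := third hd' i3
  have hD2 : D2 ≠ 0 := left_ne_zero_of_mul hD2c2
  have hD1 : D1 ≠ 0 := by
    rintro rfl
    have h1 : (-D2) • c + (1 : ℝ) • d = 0 := by rw [hd]; module
    exact one_ne_zero (li2 i9 h1).2
  have he2 : e2 ≠ 0 := by
    rintro rfl
    have h1 : (-e1) • o + (0 : ℝ) • b + (1 : ℝ) • e = 0 := by rw [he]; module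
    exact one_ne_zero (li3 i7 h1).2.2
  -- the points `g` and `h`
  obtain ⟨g1, g2, hg⟩ := comb d5 (fun r s hrs => by
    have h1 : (s * D1) • o + (s * (D2 * c1)) • a + (r + s * (D2 * c2)) • b = 0 := by
      rw [← hrs, hd']
      module
    obtain ⟨k1, k2, k3⟩ := li3 i1 h1
    have hs : s = 0 := (mul_eq_zero.mp k1).resolve_right hD1
    refine ⟨?_, hs⟩
    rw [hs, zero_mul, add_zero] at k3
    exact k3)
  obtain ⟨m1, m2, hh⟩ := comb d8 (fun r s hrs => by
    have h1 : (0 : ℝ) • o + r • a + s • d = 0 := by rw [zero_smul, zero_add]; exact hrs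
    obtain ⟨k1, k2, k3⟩ := li3 i3 h1
    exact ⟨k2, k3⟩)
  have hg' : g = (g2 * D1) • o + (g2 * (D2 * c1)) • a + (g1 + g2 * (D2 * c2)) • b := by
    rw [hg, hd']
    module
  have hh' : h = (m2 * D1) • o + (m1 + m2 * (D2 * c1)) • a + (m2 * (D2 * c2)) • b := by
    rw [hh, hd']
    module
  have hG3 : g1 + g2 * (D2 * c2) ≠ 0 := third hg' i5
  have hH3 : m2 * (D2 * c2) ≠ 0 := third hh' i6
  have hm2 : m2 ≠ 0 := left_ne_zero_of_mul hH3
  have ho' : o = (1 : ℝ) • o + (0 : ℝ) • a + (0 : ℝ) • b := by module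
  have hb' : b = (0 : ℝ) • o + (0 : ℝ) • a + (1 : ℝ) • b := by module
  have E1 := det0 i1 he' hg' hc' d6
  have E3 := det0 i1 hb' hh' he' d9
  have E4 := det0 i1 ho' hg' hh' d10
  refine alg (p := D1) (q := D2 * c1) (r := D2 * c2) (e1 := e1) (e2 := e2)
    (g2 := g2) (G3 := g1 + g2 * (D2 * c2)) (m2 := m2) (H2 := m1 + m2 * (D2 * c1)) hD1
    he2 hG3 hm2 ?_ ?_ ?_
  · linear_combination D2 * E1
  · linear_combination E3
  · linear_combination E4

end Pool.Agent.MinRank
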