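import Mathlib
import Pool.Agent.MinRank.Stmts

/-!
# A generic isotropic vector of a complex symmetric matrix
-/

open Module Matrix

namespace Pool.Agent.MinRank

namespace ISO

variable {n : ℕ}

theorem symm_bil {A : Matrix (Fin n) (Fin n) ℂ} (hA : A.IsSymm) (v w : Fin n → ℂ) :
    v ⬝ᵥ (A *ᵥ w) = w ⬝ᵥ (A *ᵥ v) := by
  rw [dotProduct_mulVec, ← mulVec_transpose, hA.eq, dotProduct_comm]

theorem quad_line {A : Matrix (Fin n) (Fin n) ℂ} (hA : A.IsSymm) (v w : Fin n → ℂ) (t : ℂ) :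
    (v + t • w) ⬝ᵥ (A *ᵥ (v + t • w)) =
      v ⬝ᵥ (A *ᵥ v) + (2 * (v ⬝ᵥ (A *ᵥ w))) * t + (w ⬝ᵥ (A *ᵥ w)) * t ^ 2 := by
  have h := symm_bil hA w v
  simp only [mulVec_add, mulVec_smul, add_dotProduct, dotProduct_add, smul_dotProduct,
    dotProduct_smul, smul_eq_mul]
  rw [h]
  ring

theorem exists_quad {A : Matrix (Fin n) (Fin n) ℂ} (hA : A.IsSymm)
    (S : Submodule ℂ (Fin n → ℂ)) (h : ∀ v ∈ S, v ⬝ᵥ (A *ᵥ v) = 0) :
    ∀ v ∈ S, ∀ w ∈ S, v ⬝ᵥ (A *ᵥ w) = 0 := by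
  intro v hv w hw
  have h1 := quad_line hA v w 1
  rw [h v hv, h w hw, h _ (S.add_mem hv (S.smul_mem 1 hw))] at h1
  have h2 : (2 : ℂ) * (v ⬝ᵥ (A *ᵥ w)) = 0 := by linear_combination -h1
  rcases mul_eq_zero.mp h2 with h3 | h3
  · norm_num at h3
  · exact h3

/-- The form is not zero on the kernel of a nonzero row. -/
theorem exists_quad_ker {A : Matrix (Fin n) (Fin n) ℂ} (hA : A.IsSymm) (hr : 3 ≤ A.rank)
    {u : Fin n} (hu : ∃ w, A u w ≠ 0) :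
    ∃ v, (A *ᵥ v) u = 0 ∧ v ⬝ᵥ (A *ᵥ v) ≠ 0 := by
  by_contra hcon
  push Not at hcon
  obtain ⟨w, hw⟩ := hu
  let y : Fin n → ℂ := Pi.single w (A u w)⁻¹
  have hy : (A *ᵥ y) u = 1 := by
    simp only [y, mulVec_single]
    simp [Matrix.col, hw]
  let H : Submodule ℂ (Fin n → ℂ) :=
    { carrier := {v | (A *ᵥ v) u = 0}
      add_mem' := by
        intro a b ha hb
        change (A *ᵥ a) u = 0 at ha
        change (A *ᵥ b) u = 0 at hb
        change (A *ᵥ (a + b)) u = 0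
        rw [mulVec_add, Pi.add_apply, ha, hb, add_zero]
      zero_mem' := by simp
      smul_mem' := by
        intro c a ha
        change (A *ᵥ a) u = 0 at ha
        change (A *ᵥ (c • a)) u = 0
        rw [mulVec_smul, Pi.smul_apply, ha, smul_zero] }
  have hH : ∀ v ∈ H, ∀ w ∈ H, v ⬝ᵥ (A *ᵥ w) = 0 := exists_quad hA H (fun v hv => hcon v hv)
  have hproj : ∀ x : Fin n → ℂ, x - (A *ᵥ x) u • y ∈ H := by
    intro x
    change (A *ᵥ (x - (A *ᵥ x) u • y)) u = 0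
    rw [mulVec_sub, mulVec_smul, Pi.sub_apply, Pi.smul_apply, hy, smul_eq_mul, mul_one, sub_self]
  have hker : ∀ x ∈ H, A *ᵥ x = (y ⬝ᵥ (A *ᵥ x)) • A u := by
    intro x hx
    funext j
    have h1 := hH _ (hproj (Pi.single j 1)) x hx
    rw [sub_dotProduct, smul_dotProduct] at h1
    have h2 : (Pi.single j (1 : ℂ) : Fin n → ℂ) ⬝ᵥ (A *ᵥ x) = (A *ᵥ x) j := by simp
    have h3 : (A *ᵥ (Pi.single j (1 : ℂ) : Fin n → ℂ)) u = A u j := by simp
    rw [h2, h3, smul_eq_mul] at h1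
    rw [Pi.smul_apply, smul_eq_mul]
    linear_combination h1
  have hrange : LinearMap.range A.mulVecLin ≤ Submodule.span ℂ ({A u, A *ᵥ y} : Set (Fin n → ℂ)) := by
    rintro _ ⟨x, rfl⟩
    have h1 : A.mulVecLin x = A *ᵥ (x - (A *ᵥ x) u • y) + (A *ᵥ x) u • (A *ᵥ y) := by
      rw [mulVecLin_apply, mulVec_sub, mulVec_smul]
      simp
    rw [h1, hker _ (hproj x)]
    refine Submodule.add_mem _ (Submodule.smul_mem _ _ (Submodule.subset_span ?_))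
      (Submodule.smul_mem _ _ (Submodule.subset_span ?_))
    · exact Set.mem_insert _ _
    · exact Set.mem_insert_of_mem _ rfl
  have h4 : A.rank ≤ 2 := by
    classical
    rw [Matrix.rank]
    refine (Submodule.finrank_mono hrange).trans ?_
    have h5 := finrank_span_finset_le_card (R := ℂ) ({A u, A *ᵥ y} : Finset (Fin n → ℂ))
    rw [Finset.coe_insert, Finset.coe_singleton] at h5
    exact h5.trans Finset.card_le_two
  omega

end ISO

open ISO in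
theorem ISO_thm (hGEN : Stmt_GEN) : Stmt_ISO := by
  intro n A hA hr
  classical
  have hne : ∀ u : Fin n, (∃ w, A u w ≠ 0) → ∃ v, (A *ᵥ v) u ≠ 0 := by
    rintro u ⟨w, hw⟩
    refine ⟨Pi.single w 1, ?_⟩
    simpa using hw
  have hQ : ∃ v : Fin n → ℂ, v ⬝ᵥ (A *ᵥ v) ≠ 0 := by
    by_contra hcon
    push Not at hcon
    have h1 := exists_quad hA ⊤ (fun v _ => hcon v)
    have h2 : A = 0 := by
      ext i j
      have h3 := h1 (Pi.single i 1) trivial (Pi.single j 1) trivial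
      simpa using h3
    rw [h2] at hr
    simp at hr
  have hlin : ∀ (u : Fin n) (v w : Fin n → ℂ) (t : ℂ),
      (A *ᵥ (v + t • w)) u = (A *ᵥ v) u + (A *ᵥ w) u * t := by
    intro u v w t
    rw [mulVec_add, mulVec_smul, Pi.add_apply, Pi.smul_apply, smul_eq_mul, mul_comm t]
  -- the first vector
  obtain ⟨α₁, h1⟩ := hGEN (Fin n → ℂ) (Option (Fin n))
    (Finset.univ.filter (fun o => ∀ u, o = some u → ∃ w, A u w ≠ 0))
    (fun o v => o.elim (v ⬝ᵥ (A *ᵥ v)) (fun u => (A *ᵥ v) u)) (by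
      intro o ho
      rw [Finset.mem_filter] at ho
      cases o with
      | none =>
        refine ⟨hQ, fun v w => ⟨_, _, _, fun t => quad_line hA v w t⟩⟩
      | some u =>
        refine ⟨hne u (ho.2 u rfl), fun v w => ⟨(A *ᵥ v) u, (A *ᵥ w) u, 0, fun t => ?_⟩⟩
        change (A *ᵥ (v + t • w)) u = _
        rw [hlin]
        ring)
  have hα₁ : α₁ ⬝ᵥ (A *ᵥ α₁) ≠ 0 := h1 none (by simp)
  have hα₁u : ∀ u, (∃ w, A u w ≠ 0) → (A *ᵥ α₁) u ≠ 0 := by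
    intro u hu
    refine h1 (some u) ?_
    rw [Finset.mem_filter]
    refine ⟨Finset.mem_univ _, fun u' hu' => ?_⟩
    rw [← Option.some_injective _ hu']
    exact hu
  -- the second vector
  have hL : ∀ (u : Fin n) (v w : Fin n → ℂ) (t : ℂ),
      (A *ᵥ α₁) u • (v + t • w) - (A *ᵥ (v + t • w)) u • α₁ =
        ((A *ᵥ α₁) u • v - (A *ᵥ v) u • α₁) + t • ((A *ᵥ α₁) u • w - (A *ᵥ w) u • α₁) := by
    intro u v w t
    rw [hlin]
    funext j
    simp only [Pi.sub_apply, Pi.add_apply, Pi.smul_apply, smul_eq_mul]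
    ring
  obtain ⟨α₀, h0⟩ := hGEN (Fin n → ℂ) (Fin n) (Finset.univ.filter (fun u => ∃ w, A u w ≠ 0))
    (fun u v => ((A *ᵥ α₁) u • v - (A *ᵥ v) u • α₁) ⬝ᵥ
      (A *ᵥ ((A *ᵥ α₁) u • v - (A *ᵥ v) u • α₁))) (by
      intro u hu
      rw [Finset.mem_filter] at hu
      refine ⟨?_, fun v w => ?_⟩
      · obtain ⟨γ, hγ, hγ2⟩ := exists_quad_ker hA hr hu.2
        refine ⟨γ, ?_⟩
        rw [hγ, zero_smul, sub_zero, mulVec_smul, smul_dotProduct, dotProduct_smul, smul_eq_mul,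
          smul_eq_mul]
        exact mul_ne_zero (hα₁u u hu.2) (mul_ne_zero (hα₁u u hu.2) hγ2)
      · have hq := quad_line hA ((A *ᵥ α₁) u • v - (A *ᵥ v) u • α₁)
          ((A *ᵥ α₁) u • w - (A *ᵥ w) u • α₁)
        refine ⟨_, _, _, fun t => Eq.trans ?_ (hq t)⟩
        rw [hL])
  -- the root
  obtain ⟨t, ht⟩ : ∃ t : ℂ, (α₀ + t • α₁) ⬝ᵥ (A *ᵥ (α₀ + t • α₁)) = 0 := by
    obtain ⟨s, hs⟩ := IsAlgClosed.exists_pow_nat_eq
      (discrim (α₁ ⬝ᵥ (A *ᵥ α₁)) (2 * (α₀ ⬝ᵥ (A *ᵥ α₁))) (α₀ ⬝ᵥ (A *ᵥ α₀))) (n := 2) (by norm_num)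
    obtain ⟨t, ht⟩ := exists_quadratic_eq_zero hα₁ ⟨s, by rw [← hs, sq]⟩
    refine ⟨t, ?_⟩
    rw [quad_line hA]
    linear_combination ht
  refine ⟨α₀ + t • α₁, ht, fun u hu hzero => ?_⟩
  refine h0 u (Finset.mem_filter.mpr ⟨Finset.mem_univ _, hu⟩) ?_
  have h2 : (A *ᵥ α₀) u = -(t * (A *ᵥ α₁) u) := by
    rw [hlin] at hzero
    linear_combination hzero
  have h3 : (A *ᵥ α₁) u • α₀ - (A *ᵥ α₀) u • α₁ = (A *ᵥ α₁) u • (α₀ + t • α₁) := by
    rw [h2]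
    funext j
    simp only [Pi.sub_apply, Pi.add_apply, Pi.smul_apply, smul_eq_mul]
    ring
  change ((A *ᵥ α₁) u • α₀ - (A *ᵥ α₀) u • α₁) ⬝ᵥ
      (A *ᵥ ((A *ᵥ α₁) u • α₀ - (A *ᵥ α₀) u • α₁)) = 0
  rw [h3, mulVec_smul, smul_dotProduct, dotProduct_smul, ht, smul_zero, smul_zero]

end Pool.Agent.MinRank
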