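import Mathlib
import Pool.Agent.MinRank.Stmts

/-!
# ISO2: an isotropic vector of a symmetric complex matrix of rank at least two
-/

open Module Matrix

namespace Pool.Agent.MinRank

namespace ISO2

theorem rank_le_one {n : ℕ} (A : Matrix (Fin n) (Fin n) ℂ) (v : Fin n → ℂ)
    (h : ∀ w, ∃ c : ℂ, A *ᵥ w = c • v) : A.rank ≤ 1 := by
  have h1 : LinearMap.range A.mulVecLin ≤ Submodule.span ℂ {v} := by
    rintro _ ⟨w, rfl⟩
    obtain ⟨c, hc⟩ := h w
    rw [Matrix.mulVecLin_apply, hc]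
    exact Submodule.smul_mem _ _ (Submodule.mem_span_singleton_self v)
  rw [Matrix.rank]
  refine (Submodule.finrank_mono h1).trans ?_
  have h2 := finrank_span_le_card (R := ℂ) ({v} : Set (Fin n → ℂ))
  simpa using h2

end ISO2

open ISO2

/-- ISO2. -/
theorem ISO2_thm : Stmt_ISO2 := by
  intro n A hA hr
  by_contra hcon
  push Not at hcon
  have hex : ∃ v : Fin n → ℂ, v ⬝ᵥ (A *ᵥ v) ≠ 0 := by
    by_contra h0
    push Not at h0
    have h1 : A.rank ≤ 1 := rank_le_one A 0 fun w => ⟨0, by rw [hcon w (h0 w), smul_zero]⟩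
    omega
  obtain ⟨v, hv⟩ := hex
  have hex2 : ∃ w : Fin n → ℂ, ∀ c : ℂ, A *ᵥ w ≠ c • (A *ᵥ v) := by
    by_contra h0
    push Not at h0
    have h1 := rank_le_one A (A *ᵥ v) h0
    omega
  obtain ⟨w, hw⟩ := hex2
  obtain ⟨s, hs⟩ := IsAlgClosed.exists_eq_mul_self
    (discrim (v ⬝ᵥ (A *ᵥ v)) (w ⬝ᵥ (A *ᵥ v) + v ⬝ᵥ (A *ᵥ w)) (w ⬝ᵥ (A *ᵥ w)))
  obtain ⟨t, ht⟩ := exists_quadratic_eq_zero hv ⟨s, hs⟩
  have h1 : (w + t • v) ⬝ᵥ (A *ᵥ (w + t • v)) = 0 := by
    rw [Matrix.mulVec_add, Matrix.mulVec_smul, add_dotProduct, dotProduct_add, dotProduct_add,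
      smul_dotProduct, smul_dotProduct, dotProduct_smul, dotProduct_smul]
    simp only [smul_eq_mul]
    linear_combination ht
  have h2 := hcon _ h1
  rw [Matrix.mulVec_add, Matrix.mulVec_smul] at h2
  apply hw (-t)
  rw [neg_smul]
  exact eq_neg_of_add_eq_zero_left h2

end Pool.Agent.MinRank
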