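import Pool.Agent.MinRank.Stmts

set_option linter.unusedSectionVars false

/-!
# LOCAL: the configuration does not exist with real subspaces which differ by one dimension
-/

open Module Matrix

namespace Pool.Agent.MinRank

namespace LOCAL

section Gen

variable {V : Type} [AddCommGroup V] [Module ℝ V] [FiniteDimensional ℝ V]

/-- Two different subspaces of dimension `x` in a subspace of dimension at most `x + 1`. -/
theorem two {x : ℕ} {S T M : Submodule ℝ V} (hS : finrank ℝ S = x) (hT : finrank ℝ T = x)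
    (hM : finrank ℝ M ≤ x + 1) (hSM : S ≤ M) (hTM : T ≤ M) (hne : ¬ T ≤ S) :
    S ⊔ T = M ∧ finrank ℝ (S ⊓ T : Submodule ℝ V) + 1 = x ∧ finrank ℝ M = x + 1 := by
  have h1 : S < S ⊔ T := by
    refine lt_of_le_of_ne le_sup_left ?_
    intro h
    apply hne
    rw [h]
    exact le_sup_right
  have h2 := Submodule.finrank_lt_finrank_of_lt h1
  have h3 : S ⊔ T ≤ M := sup_le hSM hTM
  have h4 : S ⊔ T = M := Submodule.eq_of_le_of_finrank_le h3 (by omega)
  have h5 := Submodule.finrank_sup_add_finrank_inf_eq S T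
  rw [h4] at h5 h2
  refine ⟨h4, ?_, ?_⟩
  · omega
  · omega

theorem finrank_map_mkQ {Z W : Submodule ℝ V} (h : Z ≤ W) :
    finrank ℝ (W.map Z.mkQ) + finrank ℝ Z = finrank ℝ W := by
  have h1 := LinearMap.finrank_range_add_finrank_ker (Z.mkQ.comp W.subtype)
  have h2 : LinearMap.range (Z.mkQ.comp W.subtype) = W.map Z.mkQ := by
    rw [LinearMap.range_comp, Submodule.range_subtype]
  have h3 : LinearMap.ker (Z.mkQ.comp W.subtype) = Z.comap W.subtype := by
    rw [LinearMap.ker_comp, Submodule.ker_mkQ]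
  have h4 : finrank ℝ (Z.comap W.subtype) = finrank ℝ Z :=
    (Submodule.comapSubtypeEquivOfLe h).finrank_eq
  rw [h2, h3, h4] at h1
  exact h1

/-- The span of the images of representatives. -/
theorem span_eq {Z : Submodule ℝ V} {n : ℕ} (P : Fin n → Submodule ℝ V) (p : Fin n → V)
    (h : ∀ i, P i = Z ⊔ Submodule.span ℝ {p i}) :
    Submodule.span ℝ (Set.range (fun i => Z.mkQ (p i))) = (⨆ i, P i).map Z.mkQ := by
  rw [Submodule.map_iSup, Submodule.span_range_eq_iSup]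
  apply iSup_congr
  intro i
  rw [h i, Submodule.map_sup, Submodule.map_span, Set.image_singleton]
  have h1 : Z.map Z.mkQ = ⊥ := by
    rw [eq_bot_iff, Submodule.map_le_iff_le_comap]
    intro z hz
    rw [Submodule.mem_comap, Submodule.mem_bot]
    exact (Submodule.Quotient.mk_eq_zero Z).mpr hz
  rw [h1, bot_sup_eq]

theorem li_iff {Z : Submodule ℝ V} {n : ℕ} (P : Fin n → Submodule ℝ V) (p : Fin n → V)
    (h : ∀ i, P i = Z ⊔ Submodule.span ℝ {p i}) (hn : 0 < n) :
    LinearIndependent ℝ (fun i => Z.mkQ (p i)) ↔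
      n + finrank ℝ Z ≤ finrank ℝ (⨆ i, P i : Submodule ℝ V) := by
  rw [linearIndependent_iff_card_le_finrank_span, Set.finrank, span_eq P p h, Fintype.card_fin]
  have h1 : Z ≤ ⨆ i, P i := by
    refine le_trans ?_ (le_iSup P ⟨0, hn⟩)
    rw [h]
    exact le_sup_left
  have h2 := finrank_map_mkQ h1
  omega

end Gen

section Main

variable {V : Type} [AddCommGroup V] [Module ℝ V] [FiniteDimensional ℝ V]

theorem iSup3 (P : Fin 9 → Submodule ℝ V) (i j k : Fin 9) :
    (⨆ t : Fin 3, (fun t => P (![i, j, k] t)) t) = P i ⊔ P j ⊔ P k := by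
  apply le_antisymm
  · apply iSup_le
    intro t
    fin_cases t
    · exact le_sup_of_le_left le_sup_left
    · exact le_sup_of_le_left le_sup_right
    · exact le_sup_right
  · refine sup_le (sup_le ?_ ?_) ?_
    · exact le_iSup (fun t => P (![i, j, k] t)) 0
    · exact le_iSup (fun t => P (![i, j, k] t)) 1
    · exact le_iSup (fun t => P (![i, j, k] t)) 2

theorem iSup2 (P : Fin 9 → Submodule ℝ V) (i j : Fin 9) :
    (⨆ t : Fin 2, (fun t => P (![i, j] t)) t) = P i ⊔ P j := by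
  apply le_antisymm
  · apply iSup_le
    intro t
    fin_cases t
    · exact le_sup_left
    · exact le_sup_right
  · refine sup_le ?_ ?_
    · exact le_iSup (fun t => P (![i, j] t)) 0
    · exact le_iSup (fun t => P (![i, j] t)) 1

theorem main (hHESSE : Stmt_HESSE) (x : ℕ) (P : Fin 9 → Submodule ℝ V)
    (L : Fin 10 → Submodule ℝ V) (hP : ∀ i, finrank ℝ (P i) = x)
    (hL : ∀ l, finrank ℝ (L l) ≤ x + 1) (hInc : Inc P L) : False := by
  obtain ⟨hin, hoff⟩ := hInc
  -- incidences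
  have I : ∀ (l : Fin 10) (t : Fin 3) (i : Fin 9), lines l t = i → P i ≤ L l := by
    intro l t i h
    rw [← h]
    exact hin l t
  have o0 := I 0 0 0 rfl
  have a0 := I 0 1 1 rfl
  have e0 := I 0 2 5 rfl
  have o1 := I 1 0 0 rfl
  have b1 := I 1 1 2 rfl
  have f1 := I 1 2 6 rfl
  have a2 := I 2 0 1 rfl
  have b2 := I 2 1 2 rfl
  have c2 := I 2 2 3 rfl
  have o3 := I 3 0 0 rfl
  have c3 := I 3 1 3 rfl
  have d3 := I 3 2 4 rfl
  have a6 := I 6 0 1 rfl
  have g6 := I 6 1 7 rfl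
  have f6 := I 6 2 6 rfl
  have a7 := I 7 0 1 rfl
  have d7 := I 7 1 4 rfl
  have h7 := I 7 2 8 rfl
  have b8 := I 8 0 2 rfl
  have e8 := I 8 2 5 rfl
  have o9 := I 9 0 0 rfl
  have g9 := I 9 1 7 rfl
  have h9 := I 9 2 8 rfl
  have nb0 : ¬ P 2 ≤ L 0 := hoff (2, 0) (by simp [offs])
  have nc0 : ¬ P 3 ≤ L 0 := hoff (3, 0) (by simp [offs])
  have nd0 : ¬ P 4 ≤ L 0 := hoff (4, 0) (by simp [offs])
  have nf0 : ¬ P 6 ≤ L 0 := hoff (6, 0) (by simp [offs])
  have ng0 : ¬ P 7 ≤ L 0 := hoff (7, 0) (by simp [offs])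
  have nh0 : ¬ P 8 ≤ L 0 := hoff (8, 0) (by simp [offs])
  have ne1 : ¬ P 5 ≤ L 1 := hoff (5, 1) (by simp [offs])
  have nc1 : ¬ P 3 ≤ L 1 := hoff (3, 1) (by simp [offs])
  have na1 : ¬ P 1 ≤ L 1 := hoff (1, 1) (by simp [offs])
  have nd2 : ¬ P 4 ≤ L 2 := hoff (4, 2) (by simp [offs])
  -- the common part
  set Z : Submodule ℝ V := P 0 ⊓ P 1 with hZ
  obtain ⟨hOA, hZd', hL0⟩ := two (hP 0) (hP 1) (hL 0) o0 a0 (fun h => na1 (h.trans o1))
  have hZd : finrank ℝ Z + 1 = x := hZd'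
  -- points outside of the line `L 0`
  have key : ∀ (t : Fin 9) (l m : Fin 10), ¬ P t ≤ L 0 → P 0 ≤ L l → P t ≤ L l →
      P 1 ≤ L m → P t ≤ L m → Z ≤ P t ∧ P 0 ⊓ P t = Z := by
    intro t l m ht h1 h2 h3 h4
    have h5 := (two (hP 0) (hP t) (hL l) h1 h2 (fun h => ht (h.trans o0))).2.1
    have h6 := (two (hP 1) (hP t) (hL m) h3 h4 (fun h => ht (h.trans a0))).2.1
    have h7 : finrank ℝ (L 0 ⊓ P t : Submodule ℝ V) < x := by
      rw [← hP t]
      apply Submodule.finrank_lt_finrank_of_lt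
      refine lt_of_le_of_ne inf_le_right ?_
      intro h
      apply ht
      rw [← h]
      exact inf_le_left
    have h8 : P 0 ⊓ P t = L 0 ⊓ P t :=
      Submodule.eq_of_le_of_finrank_le (inf_le_inf_right _ o0) (by omega)
    have h9 : P 1 ⊓ P t = L 0 ⊓ P t :=
      Submodule.eq_of_le_of_finrank_le (inf_le_inf_right _ a0) (by omega)
    have h10 : P 0 ⊓ P t ≤ Z := by
      refine le_inf inf_le_left ?_
      rw [h8, ← h9]
      exact inf_le_left
    have h11 : P 0 ⊓ P t = Z := Submodule.eq_of_le_of_finrank_le h10 (by omega)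
    refine ⟨?_, h11⟩
    rw [← h11]
    exact inf_le_right
  obtain ⟨zb, hob⟩ := key 2 1 2 nb0 o1 b1 a2 b2
  obtain ⟨zc, _⟩ := key 3 3 2 nc0 o3 c3 a2 c2
  obtain ⟨zd, _⟩ := key 4 3 7 nd0 o3 d3 a7 d7
  obtain ⟨zf, _⟩ := key 6 1 6 nf0 o1 f1 a6 f6
  obtain ⟨zg, _⟩ := key 7 9 6 ng0 o9 g9 a6 g6
  obtain ⟨zh, _⟩ := key 8 9 7 nh0 o9 h9 a7 h7
  have hOB : P 0 ⊔ P 2 = L 1 :=
    (two (hP 0) (hP 2) (hL 1) o1 b1 (fun h => nb0 (h.trans o0))).1
  have ze : Z ≤ P 5 := by
    have h5 := (two (hP 0) (hP 5) (hL 0) o0 e0 (fun h => ne1 (h.trans o1))).2.1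
    have h6 := (two (hP 2) (hP 5) (hL 8) b8 e8 (fun h => ne1 (h.trans b1))).2.1
    have h7 : finrank ℝ (L 1 ⊓ P 5 : Submodule ℝ V) < x := by
      rw [← hP 5]
      apply Submodule.finrank_lt_finrank_of_lt
      refine lt_of_le_of_ne inf_le_right ?_
      intro h
      apply ne1
      rw [← h]
      exact inf_le_left
    have h8 : P 0 ⊓ P 5 = L 1 ⊓ P 5 :=
      Submodule.eq_of_le_of_finrank_le (inf_le_inf_right _ o1) (by omega)
    have h9 : P 2 ⊓ P 5 = L 1 ⊓ P 5 :=
      Submodule.eq_of_le_of_finrank_le (inf_le_inf_right _ b1) (by omega)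
    have h10 : P 0 ⊓ P 5 ≤ Z := by
      rw [← hob]
      refine le_inf inf_le_left ?_
      rw [h8, ← h9]
      exact inf_le_left
    have h11 : P 0 ⊓ P 5 = Z := Submodule.eq_of_le_of_finrank_le h10 (by omega)
    rw [← h11]
    exact inf_le_right
  have hZP : ∀ i, Z ≤ P i := by
    intro i
    fin_cases i
    · exact inf_le_left
    · exact inf_le_right
    · exact zb
    · exact zc
    · exact zd
    · exact ze
    · exact zf
    · exact zg
    · exact zh
  -- representatives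
  have hex : ∀ i, ∃ v : V, P i = Z ⊔ Submodule.span ℝ {v} := by
    intro i
    have h1 : ¬ P i ≤ Z := by
      intro h
      have := Submodule.finrank_mono h
      rw [hP i] at this
      omega
    obtain ⟨v, hv, hvZ⟩ := SetLike.not_le_iff_exists.mp h1
    refine ⟨v, ?_⟩
    symm
    apply Submodule.eq_of_le_of_finrank_le
    · refine sup_le (hZP i) ?_
      rw [Submodule.span_singleton_le_iff_mem]
      exact hv
    · have h2 : Z < Z ⊔ Submodule.span ℝ {v} := by
        refine lt_of_le_of_ne le_sup_left ?_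
        intro h
        apply hvZ
        rw [h]
        exact le_sup_right (a := Z) (Submodule.mem_span_singleton_self v)
      have h3 := Submodule.finrank_lt_finrank_of_lt h2
      rw [hP i]
      omega
  choose p hp using hex
  have h3i : ∀ i j k : Fin 9, LinearIndependent ℝ ![Z.mkQ (p i), Z.mkQ (p j), Z.mkQ (p k)] ↔
      3 + finrank ℝ Z ≤ finrank ℝ (P i ⊔ P j ⊔ P k : Submodule ℝ V) := by
    intro i j k
    rw [← iSup3 P i j k,
      ← li_iff (fun t => P (![i, j, k] t)) (fun t => p (![i, j, k] t)) (fun t => hp _)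
        (by norm_num)]
    have : (fun t => Z.mkQ (p (![i, j, k] t))) = ![Z.mkQ (p i), Z.mkQ (p j), Z.mkQ (p k)] := by
      funext t
      fin_cases t <;> rfl
    rw [this]
  have h2i : ∀ i j : Fin 9, LinearIndependent ℝ ![Z.mkQ (p i), Z.mkQ (p j)] ↔
      2 + finrank ℝ Z ≤ finrank ℝ (P i ⊔ P j : Submodule ℝ V) := by
    intro i j
    rw [← iSup2 P i j,
      ← li_iff (fun t => P (![i, j] t)) (fun t => p (![i, j] t)) (fun t => hp _) (by norm_num)]
    have : (fun t => Z.mkQ (p (![i, j] t))) = ![Z.mkQ (p i), Z.mkQ (p j)] := by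
      funext t
      fin_cases t <;> rfl
    rw [this]
  -- dependent triples
  have dep : ∀ (l : Fin 10) (i j k : Fin 9), lines l 0 = i → lines l 1 = j → lines l 2 = k →
      ¬ LinearIndependent ℝ ![Z.mkQ (p i), Z.mkQ (p j), Z.mkQ (p k)] := by
    intro l i j k hi hj hk
    rw [h3i]
    have h1 : P i ⊔ P j ⊔ P k ≤ L l := sup_le (sup_le (I l 0 i hi) (I l 1 j hj)) (I l 2 k hk)
    have h2 := Submodule.finrank_mono h1
    have h3 := hL l
    omega
  -- independent triples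
  have ind0 : ∀ t : Fin 9, ¬ P t ≤ L 0 →
      LinearIndependent ℝ ![Z.mkQ (p 0), Z.mkQ (p 1), Z.mkQ (p t)] := by
    intro t ht
    rw [h3i, hOA]
    have h1 : L 0 < L 0 ⊔ P t := by
      refine lt_of_le_of_ne le_sup_left ?_
      intro h
      apply ht
      rw [h]
      exact le_sup_right
    have h2 := Submodule.finrank_lt_finrank_of_lt h1
    omega
  have ind1 : LinearIndependent ℝ ![Z.mkQ (p 0), Z.mkQ (p 2), Z.mkQ (p 5)] := by
    rw [h3i, hOB]
    have h0 := (two (hP 0) (hP 2) (hL 1) o1 b1 (fun h => nb0 (h.trans o0))).2.2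
    have h1 : L 1 < L 1 ⊔ P 5 := by
      refine lt_of_le_of_ne le_sup_left ?_
      intro h
      apply ne1
      rw [h]
      exact le_sup_right
    have h2 := Submodule.finrank_lt_finrank_of_lt h1
    omega
  have pair : ∀ (i j : Fin 9) (l : Fin 10), P i ≤ L l → ¬ P j ≤ L l →
      LinearIndependent ℝ ![Z.mkQ (p i), Z.mkQ (p j)] := by
    intro i j l hi hj
    rw [h2i]
    have h1 : P i < P i ⊔ P j := by
      refine lt_of_le_of_ne le_sup_left ?_
      intro h
      apply hj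
      refine le_trans ?_ hi
      rw [h]
      exact le_sup_right
    have h2 := Submodule.finrank_lt_finrank_of_lt h1
    rw [hP i] at h2
    omega
  exact hHESSE (V ⧸ Z) (Z.mkQ (p 0)) (Z.mkQ (p 1)) (Z.mkQ (p 2)) (Z.mkQ (p 3)) (Z.mkQ (p 4))
    (Z.mkQ (p 5)) (Z.mkQ (p 6)) (Z.mkQ (p 7)) (Z.mkQ (p 8))
    (ind0 2 nb0) (ind0 3 nc0) (ind0 4 nd0) (ind0 6 nf0) (ind0 7 ng0) (ind0 8 nh0) ind1
    (pair 2 3 1 b1 nc1) (pair 3 4 2 c2 nd2)
    (dep 0 0 1 5 rfl rfl rfl) (dep 1 0 2 6 rfl rfl rfl) (dep 2 1 2 3 rfl rfl rfl)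
    (dep 3 0 3 4 rfl rfl rfl) (dep 4 2 4 7 rfl rfl rfl) (dep 5 5 7 3 rfl rfl rfl)
    (dep 6 1 7 6 rfl rfl rfl) (dep 7 1 4 8 rfl rfl rfl) (dep 8 2 8 5 rfl rfl rfl)
    (dep 9 0 7 8 rfl rfl rfl)

end Main

end LOCAL

/-- LOCAL (from HESSE). -/
theorem LOCAL_thm (hHESSE : Stmt_HESSE) : Stmt_LOCAL := by
  intro V _ _ _ x P L hP hL hInc
  exact LOCAL.main hHESSE x P L hP hL hInc

end Pool.Agent.MinRank
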