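import Pool.Agent.MinRank.FINAL

/-!
# All pairs of complex and real minimum rank (module PAIRS)
-/

open Module Matrix

namespace Pool.Agent.MinRank

namespace PAIRS

/-- Rank factorisation. -/
theorem factor {F V : Type} [Field F] [Fintype V] (M : Matrix V V F) :
    ∃ (P : Matrix V (Fin M.rank) F) (Q : Matrix (Fin M.rank) V F), M = P * Q := by
  classical
  have hr : M.rank = finrank F (Submodule.span F (Set.range M.row)) :=
    Matrix.rank_eq_finrank_span_row M
  let b := Module.finBasisOfFinrankEq F (Submodule.span F (Set.range M.row)) hr.symm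
  have hmem : ∀ i, M i ∈ Submodule.span F (Set.range M.row) :=
    fun i => Submodule.subset_span ⟨i, rfl⟩
  refine ⟨Matrix.of fun i t => b.repr ⟨M i, hmem i⟩ t, Matrix.of fun t j => (b t : V → F) j, ?_⟩
  ext i j
  have h1 := b.sum_repr ⟨M i, hmem i⟩
  have h2 := congrArg (fun x : Submodule.span F (Set.range M.row) => (x : V → F) j) h1
  simp only [Submodule.coe_sum, Submodule.coe_smul, Finset.sum_apply, Pi.smul_apply,
    smul_eq_mul] at h2
  rw [← h2, Matrix.mul_apply]
  rfl

theorem rank_map_le {F K V : Type} [Field F] [Field K] [Fintype V] (f : F →+* K)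
    (M : Matrix V V F) : (M.map f).rank ≤ M.rank := by
  obtain ⟨P, Q, h⟩ := factor M
  have h1 : M.map f = P.map f * Q.map f := by
    conv_lhs => rw [h]
    exact Matrix.map_mul
  rw [h1]
  exact (Matrix.rank_mul_le_left _ _).trans
    ((Matrix.rank_le_card_width _).trans (by simp))

/-- The complex minimum rank is at most the real minimum rank. -/
theorem mr_le_mr {n : ℕ} (G : SimpleGraph (Fin n)) : mr ℂ G ≤ mr ℝ G := by
  obtain ⟨B, hB, hr⟩ := FINAL.exists_matrix ℝ G
  rw [← hr]
  refine (FINAL.mr_le ℂ G (B.map (algebraMap ℝ ℂ)) ⟨?_, ?_⟩).trans (rank_map_le _ _)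
  · ext i j
    simp only [Matrix.transpose_apply, Matrix.map_apply]
    rw [hB.1.apply i j]
  · intro i j hij
    rw [← hB.2 i j hij, Matrix.map_apply]
    simp

/-- Rank at most one. -/
theorem up1 {n : ℕ} (A : Matrix (Fin n) (Fin n) ℂ) (hA : A.IsSymm) (hr : A.rank ≤ 1) :
    ∃ B : Matrix (Fin n) (Fin n) ℝ, B.IsSymm ∧ (∀ i j, B i j ≠ 0 ↔ A i j ≠ 0) ∧
      B.rank ≤ A.rank := by
  classical
  obtain ⟨P, Q, h⟩ := factor A
  rcases Nat.le_one_iff_eq_zero_or_eq_one.1 hr with h0 | h1
  · have hz : A = 0 := by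
      ext i j
      rw [h, Matrix.mul_apply]
      have : IsEmpty (Fin A.rank) := by
        rw [h0]
        infer_instance
      simp
    refine ⟨0, Matrix.isSymm_zero, ?_, ?_⟩
    · intro i j
      rw [hz]
      simp
    · rw [Matrix.rank_zero]
      exact Nat.zero_le _
  · set t : Fin A.rank := ⟨0, by omega⟩ with ht
    have hu : ∀ s : Fin A.rank, s = t := by
      intro s
      apply Fin.ext
      have := s.2
      rw [ht]
      show (s : ℕ) = 0
      omega
    have hA' : ∀ i j, A i j = P i t * Q t j := by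
      intro i j
      conv_lhs => rw [h]
      rw [Matrix.mul_apply]
      exact Fintype.sum_eq_single t (fun s hs => absurd (hu s) hs)
    set B : Matrix (Fin n) (Fin n) ℝ := vecMulVec (fun i => if P i t = 0 then 0 else 1)
      (fun j => if Q t j = 0 then 0 else 1) with hB
    have hBA : ∀ i j, B i j = if A i j = 0 then 0 else 1 := by
      intro i j
      rw [hB, Matrix.vecMulVec_apply, hA' i j]
      by_cases h1 : P i t = 0
      · simp [h1]
      · by_cases h2 : Q t j = 0
        · simp [h2]
        · simp [h1, h2]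
    refine ⟨B, ?_, ?_, ?_⟩
    · ext i j
      rw [Matrix.transpose_apply, hBA, hBA, hA.apply i j]
    · intro i j
      rw [hBA]
      by_cases h1 : A i j = 0
      · simp [h1]
      · simp [h1]
    · rw [h1]
      exact Matrix.rank_vecMulVec_le _ _

/-! ### Adding an edge -/

/-- The graph `G` and a new edge. -/
def addEdge {n : ℕ} (G : SimpleGraph (Fin n)) : SimpleGraph (Fin n ⊕ Fin 2) where
  Adj x y := match x, y with
    | Sum.inl i, Sum.inl j => G.Adj i j
    | Sum.inr i, Sum.inr j => i ≠ j
    | _, _ => False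
  symm := by
    constructor
    rintro (i | i) (j | j) h
    · exact G.adj_symm h
    · exact h
    · exact h
    · exact fun h' => h h'.symm
  loopless := by
    constructor
    rintro (i | i) h
    · exact G.loopless.irrefl i h
    · exact h rfl

/-- The graph `G` and a new edge, on `Fin (n + 2)`. -/
def addEdge' {n : ℕ} (G : SimpleGraph (Fin n)) : SimpleGraph (Fin (n + 2)) :=
  (addEdge G).comap finSumFinEquiv.symm

variable {F : Type} [Field F]

theorem rank_add_le {V : Type} [Fintype V] (M N : Matrix V V F) :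
    (M + N).rank ≤ M.rank + N.rank := by
  unfold Matrix.rank
  rw [Matrix.mulVecLin_add]
  have h1 : LinearMap.range (M.mulVecLin + N.mulVecLin) ≤
      LinearMap.range M.mulVecLin ⊔ LinearMap.range N.mulVecLin := by
    rintro _ ⟨x, rfl⟩
    rw [LinearMap.add_apply]
    exact Submodule.add_mem_sup ⟨x, rfl⟩ ⟨x, rfl⟩
  exact (Submodule.finrank_mono h1).trans (Submodule.finrank_add_le_finrank_add_finrank _ _)

/-- The new edge gives rise to one more dimension. -/
theorem addEdge_lower {n : ℕ} (G : SimpleGraph (Fin n)) (A : Matrix (Fin n ⊕ Fin 2) (Fin n ⊕ Fin 2) F)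
    (hA : Describes (addEdge G) A) : mr F G + 1 ≤ A.rank := by
  classical
  -- the upper left block
  set B : Matrix (Fin n) (Fin n) F := A.submatrix Sum.inl Sum.inl with hB
  have hBd : Describes G B := by
    refine ⟨?_, ?_⟩
    · ext i j
      exact hA.1.apply (Sum.inl i) (Sum.inl j)
    · intro i j hij
      exact hA.2 (Sum.inl i) (Sum.inl j) (fun h => hij (Sum.inl_injective h))
  have h1 : mr F G ≤ B.rank := FINAL.mr_le F G B hBd
  refine (Nat.add_le_add_right h1 1).trans ?_
  have hz : ∀ (i : Fin n) (t : Fin 2), A (Sum.inl i) (Sum.inr t) = 0 := by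
    intro i t
    by_contra h
    exact (hA.2 (Sum.inl i) (Sum.inr t) (by simp)).1 h
  have hne : A (Sum.inr 1) (Sum.inr 0) ≠ 0 :=
    (hA.2 (Sum.inr 1) (Sum.inr 0) (by simp)).2 (by
      show (1 : Fin 2) ≠ 0
      decide)
  -- the column of the new vertex
  rw [Matrix.rank_eq_finrank_span_cols, Matrix.rank_eq_finrank_span_cols]
  set W : Submodule F (Fin n ⊕ Fin 2 → F) :=
    Submodule.span F (Set.range fun i : Fin n => A.col (Sum.inl i)) with hW
  set c : Fin n ⊕ Fin 2 → F := A.col (Sum.inr 0) with hc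
  set π : (Fin n ⊕ Fin 2 → F) →ₗ[F] (Fin n → F) := LinearMap.funLeft F F Sum.inl with hπ
  have hπW : W.map π = Submodule.span F (Set.range B.col) := by
    rw [hW, Submodule.map_span, ← Set.range_comp]
    rfl
  have hcW : c ∉ W := by
    intro h
    have h2 : ∀ x ∈ W, x (Sum.inr 1) = 0 := by
      intro x hx
      induction hx using Submodule.span_induction with
      | mem x hx =>
        obtain ⟨i, rfl⟩ := hx
        show A (Sum.inr 1) (Sum.inl i) = 0
        rw [hA.1.apply (Sum.inl i) (Sum.inr 1)]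
        exact hz i 1
      | zero => rfl
      | add x y _ _ hx hy => rw [Pi.add_apply, hx, hy, add_zero]
      | smul r x _ hx => rw [Pi.smul_apply, hx, smul_zero]
    exact hne (h2 c h)
  have hlt : W < W ⊔ Submodule.span F {c} := by
    refine lt_of_le_of_ne le_sup_left (fun h => hcW ?_)
    rw [h]
    exact Submodule.mem_sup_right (Submodule.mem_span_singleton_self c)
  have h3 : finrank F W < finrank F (W ⊔ Submodule.span F {c} : Submodule F _) :=
    Submodule.finrank_lt_finrank_of_lt hlt
  have h4 : (W ⊔ Submodule.span F {c} : Submodule F _) ≤ Submodule.span F (Set.range A.col) := by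
    refine sup_le ?_ ?_
    · rw [hW]
      apply Submodule.span_mono
      rintro _ ⟨i, rfl⟩
      exact ⟨Sum.inl i, rfl⟩
    · rw [Submodule.span_singleton_le_iff_mem]
      exact Submodule.subset_span ⟨Sum.inr 0, rfl⟩
  have h5 := Submodule.finrank_mono h4
  have h6 : finrank F (Submodule.span F (Set.range B.col)) ≤ finrank F W := by
    rw [← hπW]
    exact Submodule.finrank_map_le π W
  omega

/-- A matrix for the graph with the new edge. -/
theorem addEdge_upper {n : ℕ} (G : SimpleGraph (Fin n)) :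
    ∃ A : Matrix (Fin n ⊕ Fin 2) (Fin n ⊕ Fin 2) F,
      Describes (addEdge G) A ∧ A.rank ≤ mr F G + 1 := by
  classical
  obtain ⟨B, hB, hr⟩ := FINAL.exists_matrix F G
  set E : Matrix (Fin n ⊕ Fin 2) (Fin n) F :=
    Matrix.of (Sum.elim (fun i => (1 : Matrix (Fin n) (Fin n) F) i) (fun _ _ => 0)) with hE
  set v : Fin n ⊕ Fin 2 → F := Sum.elim (fun _ => 0) (fun _ => 1) with hv
  have hEB : ∀ (x : Fin n ⊕ Fin 2) (j : Fin n), (E * B) x j =
      Sum.elim (fun i => B i j) (fun _ => 0) x := by
    rintro (i | i) j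
    · rw [Matrix.mul_apply]
      show ∑ t, (1 : Matrix (Fin n) (Fin n) F) i t * B t j = B i j
      rw [← Matrix.mul_apply, Matrix.one_mul]
    · rw [Matrix.mul_apply]
      show ∑ t, (0 : F) * B t j = 0
      simp
  have hEBE : ∀ x y : Fin n ⊕ Fin 2, (E * B * Eᵀ) x y =
      Sum.elim (fun i => Sum.elim (fun j => B i j) (fun _ => 0) y) (fun _ => 0) x := by
    intro x y
    rw [Matrix.mul_apply]
    simp_rw [hEB]
    rcases x with i | i
    · rcases y with j | j
      · show ∑ t, B i t * (1 : Matrix (Fin n) (Fin n) F) j t = B i j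
        simp [Matrix.one_apply]
      · show ∑ t, B i t * (0 : F) = 0
        simp
    · show ∑ t, (0 : F) * _ = 0
      simp
  refine ⟨E * B * Eᵀ + vecMulVec v v, ⟨?_, ?_⟩, ?_⟩
  · ext x y
    rw [Matrix.transpose_apply, Matrix.add_apply, Matrix.add_apply, hEBE, hEBE,
      Matrix.vecMulVec_apply, Matrix.vecMulVec_apply, mul_comm (v y)]
    rcases x with i | i <;> rcases y with j | j
    · show B j i + _ = B i j + _
      rw [hB.1.apply i j]
    · rfl
    · rfl
    · rfl
  · intro x y hxy
    rw [Matrix.add_apply, hEBE, Matrix.vecMulVec_apply]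
    rcases x with i | i <;> rcases y with j | j
    · show B i j + 0 * 0 ≠ 0 ↔ G.Adj i j
      rw [mul_zero, add_zero]
      exact hB.2 i j (fun h => hxy (congrArg _ h))
    · show (0 : F) + 0 * 1 ≠ 0 ↔ False
      simp
    · show (0 : F) + 1 * 0 ≠ 0 ↔ False
      simp
    · show (0 : F) + 1 * 1 ≠ 0 ↔ i ≠ j
      simp only [mul_one, zero_add, ne_eq, one_ne_zero, not_false_eq_true, true_iff]
      exact fun h => hxy (congrArg _ h)
  · refine (rank_add_le _ _).trans ?_
    have h1 : (E * B * Eᵀ).rank ≤ mr F G := by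
      rw [← hr]
      exact (Matrix.rank_mul_le_left _ _).trans (Matrix.rank_mul_le_right _ _)
    have h2 : (vecMulVec v v).rank ≤ 1 := Matrix.rank_vecMulVec_le _ _
    omega

theorem mr_addEdge {n : ℕ} (G : SimpleGraph (Fin n)) : mr F (addEdge' G) = mr F G + 1 := by
  apply le_antisymm
  · obtain ⟨A, hA, hr⟩ := addEdge_upper (F := F) G
    refine (FINAL.mr_le F (addEdge' G) (A.submatrix finSumFinEquiv.symm finSumFinEquiv.symm)
      ⟨?_, ?_⟩).trans ?_
    · ext i j
      exact hA.1.apply _ _
    · intro i j hij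
      exact hA.2 _ _ (fun h => hij (finSumFinEquiv.symm.injective h))
    · rw [Matrix.rank_submatrix]
      exact hr
  · obtain ⟨A, hA, hr⟩ := FINAL.exists_matrix F (addEdge' G)
    rw [← hr]
    have h1 : (A.submatrix finSumFinEquiv finSumFinEquiv).rank = A.rank :=
      Matrix.rank_submatrix _ _ _
    rw [← h1]
    refine addEdge_lower G _ ⟨?_, ?_⟩
    · ext i j
      exact hA.1.apply _ _
    · intro i j hij
      refine (hA.2 _ _ (fun h => hij (finSumFinEquiv.injective h))).trans ?_
      show (addEdge G).Adj (finSumFinEquiv.symm (finSumFinEquiv i))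
        (finSumFinEquiv.symm (finSumFinEquiv j)) ↔ _
      rw [Equiv.symm_apply_apply, Equiv.symm_apply_apply]

end PAIRS

open PAIRS in
/-- All pairs of complex and real minimum rank. -/
theorem PAIRS_thm (hF : Stmt_FINAL) (k m : ℕ) :
    (∃ (n : ℕ) (G : SimpleGraph (Fin n)), mr ℂ G = k ∧ mr ℝ G = m) ↔
      m = k ∨ k ≤ m ∧ m ≤ 2 * k - 2 := by
  constructor
  · rintro ⟨n, G, rfl, rfl⟩
    have h1 := mr_le_mr G
    rcases Nat.lt_or_ge (mr ℂ G) 2 with h2 | h2
    · left
      apply le_antisymm _ h1
      obtain ⟨A, hA, hr⟩ := FINAL.exists_matrix ℂ G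
      obtain ⟨B, hB1, hB2, hB3⟩ := up1 A hA.1 (by omega)
      rw [← hr]
      exact (FINAL.mr_le ℝ G B ⟨hB1, fun i j hij => (hB2 i j).trans (hA.2 i j hij)⟩).trans hB3
    · right
      exact ⟨h1, (hF _ h2).2 ⟨n, G, rfl, rfl⟩⟩
  · -- adding edges
    have hadd : ∀ (j : ℕ) (a b : ℕ),
        (∃ (n : ℕ) (G : SimpleGraph (Fin n)), mr ℂ G = a ∧ mr ℝ G = b) →
        ∃ (n : ℕ) (G : SimpleGraph (Fin n)), mr ℂ G = a + j ∧ mr ℝ G = b + j := by
      intro j
      induction j with
      | zero => exact fun a b h => h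
      | succ j ih =>
        intro a b h
        obtain ⟨n, G, h1, h2⟩ := ih a b h
        refine ⟨n + 2, addEdge' G, ?_, ?_⟩
        · rw [mr_addEdge, h1]
          omega
        · rw [mr_addEdge, h2]
          omega
    have h0 : ∃ (n : ℕ) (G : SimpleGraph (Fin n)), mr ℂ G = 0 ∧ mr ℝ G = 0 := by
      refine ⟨0, ⊥, ?_, ?_⟩
      · refine Nat.le_zero.1 ((FINAL.mr_le ℂ ⊥ 0 ⟨Matrix.isSymm_zero, fun i => i.elim0⟩).trans ?_)
        rw [Matrix.rank_zero]
      · refine Nat.le_zero.1 ((FINAL.mr_le ℝ ⊥ 0 ⟨Matrix.isSymm_zero, fun i => i.elim0⟩).trans ?_)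
        rw [Matrix.rank_zero]
    rintro (rfl | ⟨h1, h2⟩)
    · have := hadd m 0 0 h0
      simpa using this
    · rcases h1.eq_or_lt with h3 | h3
      · subst h3
        have := hadd k 0 0 h0
        simpa using this
      · -- `m - k + 2` is the rank of the extremal graph
        obtain ⟨n, G, hG1, hG2⟩ := (hF (m - k + 2) (by omega)).1
        have := hadd (k - (m - k + 2)) (m - k + 2) (2 * (m - k + 2) - 2) ⟨n, G, hG1, hG2⟩
        have e1 : m - k + 2 + (k - (m - k + 2)) = k := by omega
        have e2 : 2 * (m - k + 2) - 2 + (k - (m - k + 2)) = m := by omega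
        rwa [e1, e2] at this

end Pool.Agent.MinRank
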