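import Pool.Agent.MinRank.Stmts

/-!
# PAT: the theorem for patterns which are not symmetric

Assembly of LOCAL, CONF, GALM, WIT and PHI.
-/

open Module Matrix

namespace Pool.Agent.MinRank

namespace PAT

/-- There is a subspace of any rank up to the dimension. -/
theorem exists_rank (k r : ℕ) (h : r ≤ k) :
    ∃ W : Submodule ℂ (Fin k → ℂ), finrank ℂ W = r := by
  obtain ⟨f, hf⟩ := exists_linearIndependent_of_le_finrank (R := ℂ) (M := Fin k → ℂ) (n := r)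
    (by simpa using h)
  exact ⟨Submodule.span ℂ (Set.range f), by simpa using finrank_span_eq_card hf⟩

/-- Images under an invertible map reflect the order. -/
theorem map_le {k : ℕ} (g : (Fin k → ℂ) ≃ₗ[ℂ] (Fin k → ℂ)) (A B : Submodule ℂ (Fin k → ℂ)) :
    A.map (g : (Fin k → ℂ) →ₗ[ℂ] (Fin k → ℂ)) ≤ B.map (g : (Fin k → ℂ) →ₗ[ℂ] (Fin k → ℂ)) ↔
      A ≤ B :=
  Submodule.map_le_map_iff_of_injective g.injective A B

end PAT

theorem PAT_thm (hLOCAL : Stmt_LOCAL) (hCONF : Stmt_CONF) (hGALM : Stmt_GALM) (hWIT : Stmt_WIT)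
    (hPHI : Stmt_PHI) : Stmt_PAT := by
  classical
  intro k hk
  -- the flats
  have hflat : ∀ j : Fin (k - 2),
      ∃ (P : Fin 9 → Submodule ℂ (Fin k → ℂ)) (L : Fin 10 → Submodule ℂ (Fin k → ℂ)),
      (∀ i, finrank ℂ (P i) = j + 1) ∧ (∀ l, finrank ℂ (L l) = j + 2) ∧ Inc P L :=
    fun j => hCONF j k (by omega)
  choose P L hP hL hI using hflat
  obtain ⟨R1, hR1⟩ := PAT.exists_rank k 1 (by omega)
  obtain ⟨R2, hR2⟩ := PAT.exists_rank k (k - 1) (by omega)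
  set S0 : Finset (Submodule ℂ (Fin k → ℂ)) :=
    {⊥, ⊤, R1, R2} ∪ ((Finset.univ.image fun s : Fin (k - 2) × Fin 9 => P s.1 s.2) ∪
      (Finset.univ.image fun s : Fin (k - 2) × Fin 10 => L s.1 s.2)) with hS0
  have m1 : (⊥ : Submodule ℂ (Fin k → ℂ)) ∈ S0 := by simp [hS0]
  have m2 : (⊤ : Submodule ℂ (Fin k → ℂ)) ∈ S0 := by simp [hS0]
  have m3 : R1 ∈ S0 := by simp [hS0]
  have m4 : R2 ∈ S0 := by simp [hS0]
  have m5 : ∀ j i, P j i ∈ S0 := by
    intro j i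
    rw [hS0]
    refine Finset.mem_union_right _ (Finset.mem_union_left _ ?_)
    exact Finset.mem_image.2 ⟨(j, i), Finset.mem_univ _, rfl⟩
  have m6 : ∀ j i, L j i ∈ S0 := by
    intro j i
    rw [hS0]
    refine Finset.mem_union_right _ (Finset.mem_union_right _ ?_)
    exact Finset.mem_image.2 ⟨(j, i), Finset.mem_univ _, rfl⟩
  obtain ⟨T, hT⟩ := hGALM (Fin k → ℂ) S0 (Fin (2 * k - 2))
  obtain ⟨X, Y, hXY⟩ := hWIT k ((T ×ˢ S0).image
    fun s => s.2.map (s.1 : (Fin k → ℂ) →ₗ[ℂ] (Fin k → ℂ)))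
  refine ⟨X, Y, fun N hN => ?_⟩
  by_contra hlt
  rw [not_le] at hlt
  obtain ⟨p1, p2, p3⟩ := hPHI k X Y N hN
  obtain ⟨g, hg, c, hc⟩ := hT fun W => ⟨finrank ℝ (Phi N W), lt_of_le_of_lt (p3 W) hlt⟩
  -- dimensions
  have hdim : ∀ W ∈ S0, finrank ℝ (Phi N (W.map (g : (Fin k → ℂ) →ₗ[ℂ] (Fin k → ℂ)))) =
      (c (finrank ℂ W) : ℕ) := by
    intro W hW
    have h := congrArg Fin.val (hc W hW)
    exact h
  have hle : ∀ A B : Submodule ℂ (Fin k → ℂ), A ≤ B →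
      Phi N (A.map (g : (Fin k → ℂ) →ₗ[ℂ] (Fin k → ℂ))) ≤
        Phi N (B.map (g : (Fin k → ℂ) →ₗ[ℂ] (Fin k → ℂ))) :=
    fun A B h => p1 _ _ (Submodule.map_mono h)
  have hnle : ∀ A ∈ S0, ∀ B ∈ S0, ¬ A ≤ B →
      ¬ Phi N (A.map (g : (Fin k → ℂ) →ₗ[ℂ] (Fin k → ℂ))) ≤
        Phi N (B.map (g : (Fin k → ℂ) →ₗ[ℂ] (Fin k → ℂ))) := by
    intro A hA B hB h
    refine p2 _ _ (hXY _ ?_ _ ?_ ?_)
    · exact Finset.mem_image.2 ⟨(g, A), Finset.mem_product.2 ⟨hg, hA⟩, rfl⟩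
    · exact Finset.mem_image.2 ⟨(g, B), Finset.mem_product.2 ⟨hg, hB⟩, rfl⟩
    · rw [PAT.map_le]
      exact h
  -- rank one
  have h1 : 1 ≤ (c 1 : ℕ) := by
    have h : ¬ R1 ≤ ⊥ := by
      intro h
      rw [le_bot_iff] at h
      rw [h, finrank_bot] at hR1
      omega
    have h2 := hnle R1 m3 ⊥ m1 h
    have h3 := hdim R1 m3
    rw [hR1] at h3
    rw [← h3, Nat.one_le_iff_ne_zero]
    intro h4
    rw [Submodule.finrank_eq_zero] at h4
    rw [h4] at h2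
    exact h2 bot_le
  -- the step
  have hstep : ∀ j, j + 3 ≤ k → (c (j + 1) : ℕ) + 2 ≤ (c (j + 2) : ℕ) := by
    intro j hj
    by_contra hcon
    have hj2 : j < k - 2 := by omega
    set J : Fin (k - 2) := ⟨j, hj2⟩ with hJ
    refine hLOCAL (Y → ℝ) (c (j + 1) : ℕ)
      (fun i => Phi N ((P J i).map (g : (Fin k → ℂ) →ₗ[ℂ] (Fin k → ℂ))))
      (fun l => Phi N ((L J l).map (g : (Fin k → ℂ) →ₗ[ℂ] (Fin k → ℂ)))) ?_ ?_ ?_
    · intro i
      rw [hdim _ (m5 J i), hP J i]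
    · intro l
      rw [hdim _ (m6 J l), hL J l]
      show (c (j + 2) : ℕ) ≤ _
      omega
    · refine ⟨fun l t => hle _ _ ((hI J).1 l t), fun s hs => ?_⟩
      exact hnle _ (m5 J _) _ (m6 J _) ((hI J).2 s hs)
  have hind : ∀ i, i + 2 ≤ k → 2 * i + 1 ≤ (c (i + 1) : ℕ) := by
    intro i
    induction i with
    | zero =>
      intro _
      simpa using h1
    | succ i ih =>
      intro hi
      have e1 := ih (by omega)
      have e2 := hstep i (by omega)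
      show 2 * (i + 1) + 1 ≤ (c (i + 2) : ℕ)
      omega
  -- the last step
  have h4 : ¬ (⊤ : Submodule ℂ (Fin k → ℂ)) ≤ R2 := by
    intro h
    rw [top_le_iff] at h
    rw [h, finrank_top, Module.finrank_fin_fun] at hR2
    omega
  have h5 := hnle ⊤ m2 R2 m4 h4
  have h6 := hle R2 ⊤ le_top
  have h7 := Submodule.finrank_lt_finrank_of_lt (lt_of_le_not_ge h6 h5)
  rw [hdim R2 m4, hR2] at h7
  have h8 := hind (k - 2) (by omega)
  have h9 : k - 2 + 1 = k - 1 := by omega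
  rw [h9] at h8
  have h10 := p3 ((⊤ : Submodule ℂ (Fin k → ℂ)).map (g : (Fin k → ℂ) →ₗ[ℂ] (Fin k → ℂ)))
  omega

end Pool.Agent.MinRank
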