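import Pool.Agent.MinRank.Stmts

/-!
# Module PHASE: a generic phase
-/

namespace Pool.Agent.MinRank

theorem PHASE_thm : Stmt_PHASE := by
  classical
  intro S
  obtain ⟨t, ht⟩ := Infinite.exists_notMem_finset (S.image fun z : ℂ => z.re / z.im)
  refine ⟨⟨1, t⟩, fun z hz hz0 h => ?_⟩
  have h1 : z.re = t * z.im := by
    simp only [Complex.mul_re] at h
    linarith
  by_cases hi : z.im = 0
  · apply hz0
    apply Complex.ext
    · rw [h1, hi]; simp
    · simpa using hi
  · apply ht
    rw [Finset.mem_image]
    exact ⟨z, hz, by rw [h1]; field_simp⟩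

end Pool.Agent.MinRank
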