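import Pool.Agent.MinRank.Stmts

set_option autoImplicit false

/-!
PHI: properties of the spans of rows.
-/

open Module Matrix

namespace Pool.Agent.MinRank

/-- PHI. -/
theorem PHI_thm : Stmt_PHI := by
  intro k X Y N hN
  refine ⟨?_, ?_, ?_⟩
  · intro A B hAB
    apply Submodule.span_mono
    rintro r ⟨u, hu, rfl⟩
    exact ⟨u, hAB hu, rfl⟩
  · rintro A B ⟨u, huX, huA, v, hvY, huv, hB⟩ hle
    have h1 : N ⟨u, huX⟩ ∈ Phi N A := Submodule.subset_span ⟨⟨u, huX⟩, huA, rfl⟩
    have h2 : ∀ r ∈ Phi N B, r ⟨v, hvY⟩ = 0 := by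
      intro r hr
      rw [Phi] at hr
      induction hr using Submodule.span_induction with
      | mem r hr =>
        obtain ⟨w, hw, rfl⟩ := hr
        exact (hN w ⟨v, hvY⟩).2 (hB _ hw)
      | zero => rfl
      | add x y _ _ hx hy => rw [Pi.add_apply, hx, hy, add_zero]
      | smul a x _ hx => rw [Pi.smul_apply, hx, smul_zero]
    exact huv ((hN ⟨u, huX⟩ ⟨v, hvY⟩).1 (h2 _ (hle h1)))
  · intro A
    rw [Matrix.rank_eq_finrank_span_row]
    apply Submodule.finrank_mono
    apply Submodule.span_mono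
    rintro r ⟨u, _, rfl⟩
    exact ⟨u, rfl⟩

end Pool.Agent.MinRank
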