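import Pool.Agent.MinRank.Stmts

/-!
# RED: reduction of the rank by 2
-/

open Module Matrix

namespace Pool.Agent.MinRank

namespace RED

/-- Two forms which are independent on the range of `A` and vanish on the smaller range of `A'`
show that the rank drops by two. -/
theorem rank_drop {n : ℕ} (A A' : Matrix (Fin n) (Fin n) ℂ) (α β : Fin n → ℂ)
    (h1 : ∀ v, ∃ w, A' *ᵥ v = A *ᵥ w) (h2 : ∀ v, α ⬝ᵥ (A' *ᵥ v) = 0)
    (h3 : ∀ v, β ⬝ᵥ (A' *ᵥ v) = 0) (x y : Fin n → ℂ) (hx1 : α ⬝ᵥ (A *ᵥ x) = 0)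
    (hx2 : β ⬝ᵥ (A *ᵥ x) = 1) (hy1 : α ⬝ᵥ (A *ᵥ y) = 1) (hy2 : β ⬝ᵥ (A *ᵥ y) = 0) :
    A'.rank + 2 ≤ A.rank := by
  have hD : ∀ z, (Matrix.of ![α, β]).mulVecLin z = ![α ⬝ᵥ z, β ⬝ᵥ z] := by
    intro z
    ext i
    fin_cases i
    · rfl
    · rfl
  set R : Submodule ℂ (Fin n → ℂ) := LinearMap.range A.mulVecLin with hR
  set φ : R →ₗ[ℂ] (Fin 2 → ℂ) := (Matrix.of ![α, β]).mulVecLin.comp R.subtype with hφ
  have hsurj : LinearMap.range φ = ⊤ := by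
    rw [LinearMap.range_eq_top]
    intro z
    have hm : z 1 • (A *ᵥ x) + z 0 • (A *ᵥ y) ∈ R := by
      refine R.add_mem (R.smul_mem _ ⟨x, rfl⟩) (R.smul_mem _ ⟨y, rfl⟩)
    refine ⟨⟨_, hm⟩, ?_⟩
    have e1 : φ ⟨_, hm⟩ = (Matrix.of ![α, β]).mulVecLin (z 1 • (A *ᵥ x) + z 0 • (A *ᵥ y)) := rfl
    rw [e1, hD, dotProduct_add, dotProduct_add, dotProduct_smul, dotProduct_smul, dotProduct_smul,
      dotProduct_smul, hx1, hx2, hy1, hy2]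
    ext i
    fin_cases i
    · simp
    · simp
  have hdim := LinearMap.finrank_range_add_finrank_ker φ
  rw [hsurj, finrank_top] at hdim
  have h4 : finrank ℂ (Fin 2 → ℂ) = 2 := by simp
  rw [h4] at hdim
  have hle : LinearMap.range A'.mulVecLin ≤ (LinearMap.ker φ).map R.subtype := by
    rintro _ ⟨v, rfl⟩
    obtain ⟨w, hw⟩ := h1 v
    have hm : A' *ᵥ v ∈ R := ⟨w, hw.symm⟩
    refine ⟨⟨_, hm⟩, ?_, rfl⟩
    rw [SetLike.mem_coe, LinearMap.mem_ker]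
    have e1 : φ ⟨_, hm⟩ = (Matrix.of ![α, β]).mulVecLin (A' *ᵥ v) := rfl
    rw [e1, hD, h2, h3]
    ext i
    fin_cases i
    · rfl
    · rfl
  have h5 := Submodule.finrank_mono hle
  have h6 : finrank ℂ ((LinearMap.ker φ).map R.subtype) = finrank ℂ (LinearMap.ker φ) :=
    Submodule.finrank_map_subtype_eq R (LinearMap.ker φ)
  rw [h6] at h5
  have h7 : A'.rank = finrank ℂ (LinearMap.range A'.mulVecLin) := rfl
  have h8 : A.rank = finrank ℂ R := rfl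
  omega

end RED

theorem RED_thm : Stmt_RED := by
  intro n A α hA hα hp
  have hsym : ∀ x y : Fin n → ℂ, x ⬝ᵥ (A *ᵥ y) = y ⬝ᵥ (A *ᵥ x) := by
    intro x y
    rw [dotProduct_mulVec, dotProduct_comm, ← mulVec_transpose, hA.eq]
  -- a vector with product one
  obtain ⟨i0, hi0⟩ : ∃ i, (A *ᵥ α) i ≠ 0 := by
    by_contra h
    push Not at h
    exact hp (funext h)
  set β0 : Fin n → ℂ := Pi.single i0 ((A *ᵥ α) i0)⁻¹ with hβ0
  have hβ0p : β0 ⬝ᵥ (A *ᵥ α) = 1 := by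
    rw [hβ0, single_dotProduct, inv_mul_cancel₀ hi0]
  set κ : ℂ := (β0 ⬝ᵥ (A *ᵥ β0)) / 2 with hκ
  obtain ⟨β, hβ⟩ : ∃ β : Fin n → ℂ, β = β0 - κ • α := ⟨_, rfl⟩
  have hAβ : A *ᵥ β = A *ᵥ β0 - κ • (A *ᵥ α) := by
    rw [hβ, mulVec_sub, mulVec_smul]
  have hβα : β ⬝ᵥ (A *ᵥ α) = 1 := by
    rw [hβ, sub_dotProduct, smul_dotProduct, hα, hβ0p, smul_zero, sub_zero]
  have hαβ : α ⬝ᵥ (A *ᵥ β) = 1 := by
    rw [hsym, hβα]
  have hαβ0 : α ⬝ᵥ (A *ᵥ β0) = 1 := by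
    rw [hsym, hβ0p]
  have hββ : β ⬝ᵥ (A *ᵥ β) = 0 := by
    rw [hAβ, dotProduct_sub, dotProduct_smul, hβα, hβ, sub_dotProduct, smul_dotProduct, hαβ0,
      smul_eq_mul, hκ]
    ring
  refine ⟨A *ᵥ β, ?_, ?_⟩
  · intro u hu
    rw [mulVec, dotProduct]
    refine Finset.sum_eq_zero fun w _ => ?_
    rw [hu w, zero_mul]
  · have hact : ∀ v, (A - vecMulVec (A *ᵥ α) (A *ᵥ β) - vecMulVec (A *ᵥ β) (A *ᵥ α)) *ᵥ v =
        A *ᵥ v - ((A *ᵥ β) ⬝ᵥ v) • (A *ᵥ α) - ((A *ᵥ α) ⬝ᵥ v) • (A *ᵥ β) := by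
      intro v
      rw [sub_mulVec, sub_mulVec, vecMulVec_mulVec, vecMulVec_mulVec, op_smul_eq_smul,
        op_smul_eq_smul]
    have hpv : ∀ v, (A *ᵥ α) ⬝ᵥ v = α ⬝ᵥ (A *ᵥ v) := by
      intro v
      rw [dotProduct_comm, hsym]
    have hqv : ∀ v, (A *ᵥ β) ⬝ᵥ v = β ⬝ᵥ (A *ᵥ v) := by
      intro v
      rw [dotProduct_comm, hsym]
    refine RED.rank_drop A _ α β ?_ ?_ ?_ α β hα hβα hαβ hββ
    · intro v
      refine ⟨v - ((A *ᵥ β) ⬝ᵥ v) • α - ((A *ᵥ α) ⬝ᵥ v) • β, ?_⟩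
      rw [hact, mulVec_sub, mulVec_sub, mulVec_smul, mulVec_smul]
    · intro v
      rw [hact, dotProduct_sub, dotProduct_sub, dotProduct_smul, dotProduct_smul, hα, hαβ, hpv]
      simp
    · intro v
      rw [hact, dotProduct_sub, dotProduct_sub, dotProduct_smul, dotProduct_smul, hβα, hββ, hqv]
      simp

end Pool.Agent.MinRank
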