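import Pool.Agent.MinRank.Stmts

/-!
# The rank of the real part of a complex matrix
-/

open Module Matrix

namespace Pool.Agent.MinRank

namespace RERANK

/-- Real parts of the coordinates of the vectors in a complex subspace. -/
noncomputable def reMap {n : ℕ} (W : Submodule ℂ (Fin n → ℂ)) : W →ₗ[ℝ] (Fin n → ℝ) where
  toFun w j := (w.1 j).re
  map_add' v w := by
    funext j
    simp
  map_smul' c w := by
    funext j
    simp

theorem re_row {n : ℕ} (M : Matrix (Fin n) (Fin n) ℂ) :
    Submodule.span ℝ (Set.range (M.map Complex.re).row) ≤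
      LinearMap.range (reMap (Submodule.span ℂ (Set.range M.row))) := by
  rw [Submodule.span_le]
  rintro _ ⟨i, rfl⟩
  exact ⟨⟨M.row i, Submodule.subset_span ⟨i, rfl⟩⟩, rfl⟩

end RERANK

/-- The rank of the real part is at most twice the rank. -/
theorem RERANK_thm : Stmt_RERANK := by
  intro n M
  rw [Matrix.rank_eq_finrank_span_row, Matrix.rank_eq_finrank_span_row]
  calc finrank ℝ (Submodule.span ℝ (Set.range (M.map Complex.re).row))
      ≤ finrank ℝ (LinearMap.range (RERANK.reMap (Submodule.span ℂ (Set.range M.row)))) :=
        Submodule.finrank_mono (RERANK.re_row M)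
    _ ≤ finrank ℝ (Submodule.span ℂ (Set.range M.row)) := LinearMap.finrank_range_le _
    _ = 2 * finrank ℂ (Submodule.span ℂ (Set.range M.row)) := finrank_real_of_complex _

end Pool.Agent.MinRank
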