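import Pool.Agent.MinRank.PAIRS

open Module Matrix

namespace Pool.Agent.MinRank

theorem RERANK2_thm : Stmt_RERANK := by
  classical
  intro n M
  obtain ⟨P, Q, h⟩ := PAIRS.factor M
  have h1 : M.map Complex.re = P.map Complex.re * Q.map Complex.re +
      P.map (fun z => - z.im) * Q.map Complex.im := by
    ext i j
    rw [Matrix.add_apply, Matrix.mul_apply, Matrix.mul_apply, Matrix.map_apply]
    conv_lhs => rw [h]
    rw [Matrix.mul_apply, Complex.re_sum, ← Finset.sum_add_distrib]
    refine Finset.sum_congr rfl fun t _ => ?_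
    rw [Matrix.map_apply, Matrix.map_apply, Matrix.map_apply, Matrix.map_apply, Complex.mul_re]
    ring
  rw [h1]
  refine (PAIRS.rank_add_le _ _).trans ?_
  have h2 : (P.map Complex.re * Q.map Complex.re).rank ≤ M.rank :=
    (Matrix.rank_mul_le_left _ _).trans ((Matrix.rank_le_card_width _).trans (by simp))
  have h3 : (P.map (fun z => - z.im) * Q.map Complex.im).rank ≤ M.rank :=
    (Matrix.rank_mul_le_left _ _).trans ((Matrix.rank_le_card_width _).trans (by simp))
  omega

end Pool.Agent.MinRank
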