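import Pool.Agent.MinRank.Stmts

/-!
# UP2: the upper bound for rank 2
-/

open Module Matrix

namespace Pool.Agent.MinRank

namespace UP2

theorem eq_zero_of_rank {n : ℕ} (A : Matrix (Fin n) (Fin n) ℂ) (h : A.rank = 0) : A = 0 := by
  have h1 : LinearMap.range A.mulVecLin = ⊥ := Submodule.finrank_eq_zero.1 h
  have h2 : A.mulVecLin = 0 := LinearMap.range_eq_bot.1 h1
  ext i j
  have h3 := congrFun (LinearMap.congr_fun h2 (Pi.single j 1)) i
  simpa using h3

theorem rank_le_two {n : ℕ} (P Q : Fin n → ℝ) : (vecMulVec P Q + vecMulVec Q P).rank ≤ 2 := by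
  have h1 : vecMulVec P Q + vecMulVec Q P =
      (Matrix.of fun i (t : Fin 2) => ![P i, Q i] t) * (Matrix.of fun (t : Fin 2) j => ![Q j, P j] t) := by
    ext i j
    simp [Matrix.mul_apply, Matrix.vecMulVec_apply, Fin.sum_univ_two]
  rw [h1]
  refine (Matrix.rank_mul_le_left _ _).trans ?_
  exact Matrix.rank_le_width _

end UP2

theorem UP2_thm (hPHASE : Stmt_PHASE) (hISO2 : Stmt_ISO2) (hRED : Stmt_RED) : Stmt_UP2 := by
  classical
  intro n A hA hr
  obtain ⟨α, h1, h2⟩ := hISO2 n A hA (by omega)
  obtain ⟨q, -, h3⟩ := hRED n A α hA h1 h2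
  set p : Fin n → ℂ := A *ᵥ α with hp
  have h4 : (A - vecMulVec p q - vecMulVec q p).rank = 0 := by omega
  replace h4 := UP2.eq_zero_of_rank _ h4
  have hA' : ∀ i j, A i j = p i * q j + q i * p j := by
    intro i j
    have h5 := congrFun (congrFun h4 i) j
    simp only [Matrix.sub_apply, Matrix.vecMulVec_apply, Matrix.zero_apply] at h5
    linear_combination h5
  obtain ⟨c, hc⟩ := hPHASE (Finset.univ.image
    (fun s : Fin n × Fin n => q s.1 / p s.1 + q s.2 / p s.2))
  let P : Fin n → ℝ := fun u => if p u = 0 then 0 else 1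
  let Q : Fin n → ℝ := fun u => if p u = 0 then (if q u = 0 then 0 else 1) else (c * (q u / p u)).re
  refine ⟨vecMulVec P Q + vecMulVec Q P, ?_, ?_, ?_⟩
  · rw [Matrix.IsSymm, Matrix.transpose_add]
    ext i j
    simp only [Matrix.add_apply, Matrix.transpose_apply, Matrix.vecMulVec_apply]
    ring
  · intro i j _
    rw [hA' i j]
    simp only [Matrix.add_apply, Matrix.vecMulVec_apply]
    by_cases hi : p i = 0
    · by_cases hj : p j = 0
      · simp [P, hi, hj]
      · by_cases hqi : q i = 0
        · simp [P, Q, hi, hj, hqi]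
        · simp [P, Q, hi, hj, hqi]
    · by_cases hj : p j = 0
      · by_cases hqj : q j = 0
        · simp [P, Q, hi, hj, hqj]
        · simp [P, Q, hi, hj, hqj]
      · have e1 : P i * Q j + Q i * P j = (c * (q i / p i + q j / p j)).re := by
          simp only [P, Q, if_neg hi, if_neg hj]
          rw [mul_add, Complex.add_re]
          ring
        have e2 : p i * q j + q i * p j = p i * p j * (q i / p i + q j / p j) := by
          field_simp
          ring
        rw [e1, e2]
        constructor
        · intro h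
          refine mul_ne_zero (mul_ne_zero hi hj) ?_
          intro h0
          rw [h0, mul_zero, Complex.zero_re] at h
          exact h rfl
        · intro h
          have h5 : q i / p i + q j / p j ≠ 0 := (mul_ne_zero_iff.1 h).2
          exact hc _ (Finset.mem_image.2 ⟨(i, j), Finset.mem_univ _, rfl⟩) h5
  · exact UP2.rank_le_two P Q

end Pool.Agent.MinRank
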