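import Pool.Agent.MinRank.Stmts

/-!
# The upper bound for rank at least 3 (module UP3)
-/

open Module Matrix

namespace Pool.Agent.MinRank

namespace UP3

theorem rank_diag_mul {n : ℕ} (d : Fin n → ℂ) (M : Matrix (Fin n) (Fin n) ℂ) :
    (Matrix.of fun u w => d u * M u w * d w).rank ≤ M.rank := by
  have e : (Matrix.of fun u w => d u * M u w * d w) =
      Matrix.diagonal d * M * Matrix.diagonal d := by
    ext u w
    simp [Matrix.diagonal_mul, Matrix.mul_diagonal]
  rw [e]
  exact (Matrix.rank_mul_le_left _ _).trans (Matrix.rank_mul_le_right _ _)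

theorem rank_smul_le {n : ℕ} (c : ℂ) (M : Matrix (Fin n) (Fin n) ℂ) :
    (c • M).rank ≤ M.rank := by
  have e : c • M = (Matrix.diagonal fun _ => c) * M := by
    ext u w
    simp [Matrix.diagonal_mul]
  rw [e]
  exact Matrix.rank_mul_le_right _ _

theorem rank_add_le' {n : ℕ} (M N : Matrix (Fin n) (Fin n) ℝ) :
    (M + N).rank ≤ M.rank + N.rank := by
  unfold Matrix.rank
  rw [Matrix.mulVecLin_add]
  have h1 : LinearMap.range (M.mulVecLin + N.mulVecLin) ≤
      LinearMap.range M.mulVecLin ⊔ LinearMap.range N.mulVecLin := by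
    rintro _ ⟨x, rfl⟩
    rw [LinearMap.add_apply]
    exact Submodule.add_mem_sup ⟨x, rfl⟩ ⟨x, rfl⟩
  exact (Submodule.finrank_mono h1).trans (Submodule.finrank_add_le_finrank_add_finrank _ _)

end UP3

open UP3 in
theorem UP3_thm (hPHASE : Stmt_PHASE) (hRERANK : Stmt_RERANK) (hISO : Stmt_ISO)
    (hRED : Stmt_RED) : Stmt_UP3 := by
  classical
  intro n A hA hr
  obtain ⟨α, hα0, hα⟩ := hISO n A hA hr
  set p : Fin n → ℂ := A *ᵥ α with hp
  -- a nonzero row
  obtain ⟨u₀, w₀, hu₀⟩ : ∃ u w, A u w ≠ 0 := by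
    by_contra hcon
    push Not at hcon
    have h0 : A = 0 := by
      ext u w
      exact hcon u w
    rw [h0, Matrix.rank_zero] at hr
    omega
  have hpne : A *ᵥ α ≠ 0 := fun h => hα u₀ ⟨w₀, hu₀⟩ (congrFun h u₀)
  obtain ⟨q, hq0, hrank⟩ := hRED n A α hA hα0 hpne
  rw [← hp] at hrank
  set A' : Matrix (Fin n) (Fin n) ℂ := A - vecMulVec p q - vecMulVec q p with hA'
  let d : Fin n → ℂ := fun u => if ∃ w, A u w ≠ 0 then (p u)⁻¹ else 1
  have hd : ∀ u, d u ≠ 0 := by
    intro u
    show (if ∃ w, A u w ≠ 0 then (p u)⁻¹ else 1) ≠ 0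
    split_ifs with h
    · exact inv_ne_zero (hα u h)
    · exact one_ne_zero
  let e : Fin n → ℝ := fun u => if ∃ w, A u w ≠ 0 then 1 else 0
  have he : ∀ u, d u * p u = (e u : ℂ) := by
    intro u
    show (if ∃ w, A u w ≠ 0 then (p u)⁻¹ else 1) * p u = ((if ∃ w, A u w ≠ 0 then 1 else 0 : ℝ) : ℂ)
    split_ifs with h
    · rw [inv_mul_cancel₀ (hα u h)]; norm_num
    · push Not at h
      have h1 : p u = 0 := by
        show ∑ w, A u w * α w = 0
        exact Finset.sum_eq_zero fun w _ => by rw [h w, zero_mul]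
      rw [h1]; simp
  obtain ⟨c, hc⟩ := hPHASE (Finset.univ.image fun s : Fin n × Fin n => d s.1 * A s.1 s.2 * d s.2)
  let r : Fin n → ℝ := fun u => (c * (d u * q u)).re
  let M' : Matrix (Fin n) (Fin n) ℂ := Matrix.of fun u w => d u * A' u w * d w
  let B : Matrix (Fin n) (Fin n) ℝ := Matrix.of fun u w => (c * (d u * A u w * d w)).re
  have hM' : M'.rank ≤ A'.rank := rank_diag_mul d A'
  have hBe : B = vecMulVec e r + vecMulVec r e + (c • M').map Complex.re := by
    ext u w
    have h1 : A u w = p u * q w + q u * p w + A' u w := by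
      rw [hA']
      simp only [Matrix.sub_apply, Matrix.vecMulVec_apply]
      ring
    have h2 : c * (d u * A u w * d w) =
        (e u : ℂ) * (c * (d w * q w)) + (c * (d u * q u)) * (e w : ℂ) +
          c * (d u * A' u w * d w) := by
      rw [h1, ← he u, ← he w]
      ring
    show (c * (d u * A u w * d w)).re = _
    rw [h2]
    simp only [Matrix.add_apply, Matrix.vecMulVec_apply, Matrix.map_apply, Matrix.smul_apply,
      smul_eq_mul, Complex.add_re]
    congr 1
    congr 1
    · rw [Complex.re_ofReal_mul]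
    · rw [mul_comm (c * (d u * q u)) _, Complex.re_ofReal_mul, mul_comm]
  refine ⟨B, ?_, ?_, ?_⟩
  · ext u w
    show (c * (d w * A w u * d u)).re = (c * (d u * A u w * d w)).re
    have h1 : A w u = A u w := hA.apply u w
    rw [h1]
    congr 1
    ring
  · intro i j _
    show (c * (d i * A i j * d j)).re ≠ 0 ↔ A i j ≠ 0
    constructor
    · intro h h0
      apply h
      rw [h0]
      simp
    · intro h
      refine hc (d i * A i j * d j) ?_ (mul_ne_zero (mul_ne_zero (hd i) h) (hd j))
      rw [Finset.mem_image]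
      exact ⟨(i, j), Finset.mem_univ _, rfl⟩
  · rw [hBe]
    have h1 : (vecMulVec e r + vecMulVec r e + (c • M').map Complex.re).rank ≤
        (vecMulVec e r).rank + (vecMulVec r e).rank + ((c • M').map Complex.re).rank :=
      (rank_add_le' _ _).trans (Nat.add_le_add_right (rank_add_le' _ _) _)
    have h2 : (vecMulVec e r).rank ≤ 1 := Matrix.rank_vecMulVec_le _ _
    have h3 : (vecMulVec r e).rank ≤ 1 := Matrix.rank_vecMulVec_le _ _
    have h4 := hRERANK n (c • M')
    have h5 := rank_smul_le c M'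
    omega

end Pool.Agent.MinRank
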