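import Pool.Agent.MinRank.Stmts

/-!
# WIT: finitely many vectors and covectors separate finitely many subspaces
-/

open Module Matrix

namespace Pool.Agent.MinRank

namespace WIT

theorem sep {k : ℕ} (A B : Submodule ℂ (Fin k → ℂ)) (h : ¬ A ≤ B) :
    ∃ u v : Fin k → ℂ, u ∈ A ∧ u ⬝ᵥ v ≠ 0 ∧ ∀ w ∈ B, w ⬝ᵥ v = 0 := by
  obtain ⟨u, hu, hub⟩ := SetLike.not_le_iff_exists.1 h
  obtain ⟨f, hf, hfB⟩ := Submodule.exists_le_ker_of_notMem hub
  have key : ∀ w : Fin k → ℂ, w ⬝ᵥ (fun i => f (Pi.single i 1)) = f w := by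
    intro w
    rw [LinearMap.pi_apply_eq_sum_univ f w, dotProduct]
    refine Finset.sum_congr rfl fun i _ => ?_
    rw [smul_eq_mul]
    congr 2
    funext j
    rw [Pi.single_apply]
    simp [eq_comm]
  refine ⟨u, fun i => f (Pi.single i 1), hu, ?_, ?_⟩
  · rw [key]
    exact hf
  · intro w hw
    rw [key]
    exact hfB hw

end WIT

theorem WIT_thm : Stmt_WIT := by
  classical
  intro k S
  have h : ∀ q : Submodule ℂ (Fin k → ℂ) × Submodule ℂ (Fin k → ℂ), ∃ r : (Fin k → ℂ) × (Fin k → ℂ),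
      ¬ q.1 ≤ q.2 → r.1 ∈ q.1 ∧ r.1 ⬝ᵥ r.2 ≠ 0 ∧ ∀ w ∈ q.2, w ⬝ᵥ r.2 = 0 := by
    intro q
    by_cases hq : q.1 ≤ q.2
    · exact ⟨(0, 0), fun h => absurd hq h⟩
    · obtain ⟨u, v, h1, h2, h3⟩ := WIT.sep q.1 q.2 hq
      exact ⟨(u, v), fun _ => ⟨h1, h2, h3⟩⟩
  choose g hg using h
  refine ⟨(S ×ˢ S).image (fun q => (g q).1), (S ×ˢ S).image (fun q => (g q).2), ?_⟩
  intro A hA B hB hAB
  obtain ⟨h1, h2, h3⟩ := hg (A, B) hAB
  exact ⟨(g (A, B)).1, Finset.mem_image_of_mem (fun q => (g q).1) (Finset.mk_mem_product hA hB), h1,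
    (g (A, B)).2, Finset.mem_image_of_mem (fun q => (g q).2) (Finset.mk_mem_product hA hB), h2, h3⟩

end Pool.Agent.MinRank
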